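import Mathlib

/-!
Flat modules over arbitrary rings by the equational criterion, splitting of extensions,
presentations by free modules.
-/

namespace Pool.Agent.Q26.FP

universe u

/-- A left module `F` over an arbitrary ring `S` is flat if every linear relation in `F` is a
consequence of linear relations in `S` (the equational criterion of flatness). -/
def IsFlat (S F : Type u) [Ring S] [AddCommGroup F] [Module S F] : Prop :=
  ∀ (n : ℕ) (r : Fin n → S) (x : Fin n → F), ∑ i, r i • x i = 0 →
    ∃ (m : ℕ) (a : Fin n → Fin m → S) (y : Fin m → F),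
      (∀ i, x i = ∑ j, a i j • y j) ∧ ∀ j, ∑ i, r i * a i j = 0

/-- `Ext^1_S(F, C) = 0`: every short exact sequence `0 → C → Y → F → 0` of left `S`-modules
splits. -/
def ExtZero (S F C : Type u) [Ring S] [AddCommGroup F] [Module S F] [AddCommGroup C]
    [Module S C] : Prop :=
  ∀ (Y : Type u) [AddCommGroup Y] [Module S Y] (i : C →ₗ[S] Y) (p : Y →ₗ[S] F),
    Function.Injective i → Function.Surjective p → LinearMap.range i = LinearMap.ker p →
    ∃ s : F →ₗ[S] Y, p ∘ₗ s = LinearMap.id

/-- A left `S`-module `C` is cotorsion if `Ext^1_S(F, C) = 0` for every flat left module `F`. -/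
def IsCotorsion (S C : Type u) [Ring S] [AddCommGroup C] [Module S C] : Prop :=
  ∀ (F : Type u) [AddCommGroup F] [Module S F], IsFlat S F → ExtZero S F C

/-- A left `A`-module `F` is `A/R`-flaprojective if `Ext^1_A(F, C) = 0` for every left `A`-module
`C` whose underlying `R`-module is cotorsion. -/
def IsFlaprojective {R A : Type u} [Ring R] [Ring A] (f : R →+* A)
    (F : Type u) [AddCommGroup F] [Module A F] : Prop :=
  ∀ (C : Type u) [AddCommGroup C] [Module A C],
    @IsCotorsion R C _ _ (Module.compHom C f) → ExtZero A F C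

/-- The submodule `K` of a free module has the property that every element of it is fixed by an
endomorphism with values in `K` (this says that the quotient is flat). -/
def VPure {S X : Type u} [Ring S] (K : Submodule S (X →₀ S)) : Prop :=
  ∀ k ∈ K, ∃ θ : (X →₀ S) →ₗ[S] (X →₀ S), (∀ p, θ p ∈ K) ∧ θ k = k

/-- Every homomorphism from `K` to `C` extends to the free module. -/
def ExtP {S X : Type u} [Ring S] (K : Submodule S (X →₀ S)) (C : Type u) [AddCommGroup C]
    [Module S C] : Prop :=
  ∀ h : K →ₗ[S] C, ∃ g : (X →₀ S) →ₗ[S] C, ∀ k : K, g k = h k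

section factor

theorem exists_factor {S W G Y : Type*} [Ring S] [AddCommGroup W] [Module S W] [AddCommGroup G]
    [Module S G] [AddCommGroup Y] [Module S Y] (E : W →ₗ[S] G) (F : W →ₗ[S] Y)
    (h : ∀ w, E w = 0 → F w = 0) :
    ∃ s : LinearMap.range E →ₗ[S] Y, ∀ w, s ⟨E w, w, rfl⟩ = F w := by
  have hle : LinearMap.ker E ≤ LinearMap.ker F := fun w hw => h w hw
  refine ⟨((LinearMap.ker E).liftQ F hle) ∘ₗ E.quotKerEquivRange.symm.toLinearMap, ?_⟩
  intro w
  have : E.quotKerEquivRange.symm ⟨E w, w, rfl⟩ = Submodule.Quotient.mk w := by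
    rw [LinearEquiv.symm_apply_eq]
    rfl
  simp only [LinearMap.coe_comp, LinearEquiv.coe_coe, Function.comp_apply, this]
  rfl

theorem exists_factor_of_surjective {S W G Y : Type*} [Ring S] [AddCommGroup W] [Module S W]
    [AddCommGroup G] [Module S G] [AddCommGroup Y] [Module S Y] (E : W →ₗ[S] G) (F : W →ₗ[S] Y)
    (hE : Function.Surjective E) (h : ∀ w, E w = 0 → F w = 0) :
    ∃ s : G →ₗ[S] Y, ∀ w, s (E w) = F w := by
  obtain ⟨s, hs⟩ := exists_factor E F h
  have hr : LinearMap.range E = ⊤ := LinearMap.range_eq_top.mpr hE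
  refine ⟨s ∘ₗ (LinearMap.codRestrict (LinearMap.range E) LinearMap.id (fun x => by
    rw [hr]; trivial)), fun w => ?_⟩
  exact hs w

end factor

section flat

variable {S X F C : Type u} [Ring S] [AddCommGroup F] [Module S F] [AddCommGroup C] [Module S C]

/-- The criterion with a finite index type. -/
theorem isFlat_of_fintype
    (h : ∀ (n : ℕ) (r : Fin n → S) (x : Fin n → F), ∑ i, r i • x i = 0 →
      ∃ (J : Type) (_ : Fintype J) (a : Fin n → J → S) (y : J → F),
        (∀ i, x i = ∑ j, a i j • y j) ∧ ∀ j, ∑ i, r i * a i j = 0) : IsFlat S F := by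
  intro n r x hrx
  obtain ⟨J, hJ, a, y, h1, h2⟩ := h n r x hrx
  let e := Fintype.equivFin J
  refine ⟨Fintype.card J, fun i j => a i (e.symm j), fun j => y (e.symm j), ?_, fun j => h2 _⟩
  intro i
  rw [h1 i]
  exact (e.symm.sum_comp (fun j => a i j • y j)).symm

/-- The relation may be indexed by any finite type. -/
theorem IsFlat.fintype (hF : IsFlat S F) {I : Type*} [Fintype I] (r : I → S) (x : I → F)
    (h : ∑ i, r i • x i = 0) :
    ∃ (m : ℕ) (a : I → Fin m → S) (y : Fin m → F),
      (∀ i, x i = ∑ j, a i j • y j) ∧ ∀ j, ∑ i, r i * a i j = 0 := by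
  let e := Fintype.equivFin I
  obtain ⟨m, a, y, h1, h2⟩ := hF (Fintype.card I) (fun i => r (e.symm i)) (fun i => x (e.symm i))
    (by rw [← h]; exact e.symm.sum_comp (fun i => r i • x i))
  refine ⟨m, fun i => a (e i), y, ?_, ?_⟩
  · intro i
    have := h1 (e i)
    rwa [e.symm_apply_apply] at this
  · intro j
    rw [← h2 j, ← e.symm.sum_comp]
    simp

theorem vpure_ker (hF : IsFlat S F) (π : (X →₀ S) →ₗ[S] F) (hπ : Function.Surjective π) :
    VPure (LinearMap.ker π) := by
  classical
  intro k hk
  have hk' : π k = 0 := hk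
  have hsum : ∑ i : k.support, k i • π (Finsupp.single (i : X) 1) = 0 := by
    rw [Finset.sum_coe_sort k.support (fun x => k x • π (Finsupp.single x 1)), ← hk']
    conv_rhs => rw [← Finsupp.sum_single k, Finsupp.sum, map_sum]
    refine Finset.sum_congr rfl fun x _ => ?_
    rw [← map_smul, Finsupp.smul_single, smul_eq_mul, mul_one]
  obtain ⟨m, a, y, h1, h2⟩ := hF.fintype _ _ hsum
  choose z hz using fun j => hπ (y j)
  let w : X → (X →₀ S) := fun x => if hx : x ∈ k.support then
    Finsupp.single x 1 - ∑ j, a ⟨x, hx⟩ j • z j else 0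
  refine ⟨Finsupp.linearCombination S w, ?_, ?_⟩
  · intro p
    have hw : ∀ x, w x ∈ LinearMap.ker π := by
      intro x
      by_cases hx : x ∈ k.support
      · simp only [w, hx, dif_pos, LinearMap.mem_ker, map_sub, map_sum, map_smul, hz]
        rw [h1 ⟨x, hx⟩, sub_self]
      · simp only [w, hx, dif_neg, not_false_eq_true]
        exact Submodule.zero_mem _
    rw [Finsupp.linearCombination_apply, Finsupp.sum]
    exact Submodule.sum_mem _ fun x _ => Submodule.smul_mem _ _ (hw x)
  · rw [Finsupp.linearCombination_apply, Finsupp.sum, ← Finset.sum_coe_sort]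
    have : ∀ x : k.support, k x • w x = Finsupp.single (x : X) (k x) -
        ∑ j, (k x * a x j) • z j := by
      intro x
      have hx := x.2
      simp only [w, hx, dif_pos, smul_sub, Finsupp.smul_single, smul_eq_mul, mul_one,
        Finset.smul_sum, smul_smul]
    rw [Finset.sum_congr rfl (fun x _ => this x), Finset.sum_sub_distrib, Finset.sum_comm]
    have h3 : ∑ j, ∑ x : k.support, (k x * a x j) • z j = 0 := by
      refine Finset.sum_eq_zero fun j _ => ?_
      rw [← Finset.sum_smul, h2 j, zero_smul]
    rw [h3, sub_zero, Finset.sum_coe_sort k.support (fun x => Finsupp.single x (k x))]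
    exact Finsupp.sum_single k

theorem isFlat_quotient {K : Submodule S (X →₀ S)} (hK : VPure K) :
    IsFlat S ((X →₀ S) ⧸ K) := by
  classical
  apply isFlat_of_fintype
  intro n r x hrx
  choose z hz using fun i => Submodule.Quotient.mk_surjective K (x i)
  have hmem : ∑ i, r i • z i ∈ K := by
    rw [← Submodule.Quotient.mk_eq_zero, ← hrx]
    change K.mkQ _ = _
    rw [map_sum]
    refine Finset.sum_congr rfl fun i _ => ?_
    rw [map_smul]
    exact congrArg _ (hz i)
  obtain ⟨θ, hθK, hθ⟩ := hK _ hmem
  let z' : Fin n → (X →₀ S) := fun i => z i - θ (z i)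
  have hz' : ∑ i, r i • z' i = 0 := by
    simp only [z', smul_sub, Finset.sum_sub_distrib]
    rw [sub_eq_zero]
    conv_lhs => rw [← hθ]
    rw [map_sum]
    exact Finset.sum_congr rfl fun i _ => map_smul _ _ _
  let s : Finset X := Finset.univ.biUnion fun i => (z' i).support
  let e := Fintype.equivFin s
  refine ⟨Fin (Fintype.card s), inferInstance, fun i j => z' i (e.symm j),
    fun j => Submodule.Quotient.mk (Finsupp.single (e.symm j : X) 1), ?_, ?_⟩
  · intro i
    have h1 : x i = K.mkQ (z' i) := by
      simp only [z', map_sub]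
      have : K.mkQ (θ (z i)) = 0 := by
        rw [Submodule.mkQ_apply, Submodule.Quotient.mk_eq_zero]
        exact hθK _
      rw [this, sub_zero]
      exact (hz i).symm
    have h2 : z' i = ∑ x ∈ s, z' i x • Finsupp.single x (1 : S) := by
      conv_lhs => rw [← Finsupp.sum_single (z' i)]
      rw [Finsupp.sum_of_support_subset (z' i) (s := s) (by
        intro x hx
        exact Finset.mem_biUnion.mpr ⟨i, Finset.mem_univ _, hx⟩) _ (by simp)]
      refine Finset.sum_congr rfl fun x _ => ?_
      rw [Finsupp.smul_single, smul_eq_mul, mul_one]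
    rw [h1]
    conv_lhs => rw [h2]
    rw [map_sum, ← Finset.sum_coe_sort, ← e.symm.sum_comp]
    refine Finset.sum_congr rfl fun j _ => ?_
    rw [map_smul]
    rfl
  · intro j
    have := congrArg (fun p : X →₀ S => p (e.symm j)) hz'
    simpa [Finsupp.finsetSum_apply] using this

theorem extP_ker (π : (X →₀ S) →ₗ[S] F) (hπ : Function.Surjective π) (h : ExtZero S F C) :
    ExtP (LinearMap.ker π) C := by
  intro g
  -- the pushout
  let J : Submodule S (C × (X →₀ S)) := LinearMap.range
    (LinearMap.prod g (-(LinearMap.ker π).subtype))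
  let Y := (C × (X →₀ S)) ⧸ J
  let i : C →ₗ[S] Y := J.mkQ ∘ₗ LinearMap.inl S C (X →₀ S)
  have hp0 : J ≤ LinearMap.ker (π ∘ₗ LinearMap.snd S C (X →₀ S)) := by
    rintro _ ⟨k, rfl⟩
    have : π (k : X →₀ S) = 0 := k.2
    simp [this]
  let p : Y →ₗ[S] F := J.liftQ (π ∘ₗ LinearMap.snd S C (X →₀ S)) hp0
  have hi : Function.Injective i := by
    rw [injective_iff_map_eq_zero]
    intro c hc
    have hc' : (c, (0 : X →₀ S)) ∈ J := by
      rw [← Submodule.Quotient.mk_eq_zero]
      exact hc
    obtain ⟨k, hk⟩ := hc'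
    have h1 : g k = c := congrArg Prod.fst hk
    have h2 : -(k : X →₀ S) = 0 := congrArg Prod.snd hk
    have h3 : k = 0 := by
      ext1
      simpa using h2
    rw [← h1, h3, map_zero]
  have hp : Function.Surjective p := by
    intro y
    obtain ⟨x, hx⟩ := hπ y
    exact ⟨Submodule.Quotient.mk (0, x), hx⟩
  have hex : LinearMap.range i = LinearMap.ker p := by
    apply le_antisymm
    · rintro _ ⟨c, rfl⟩
      change π 0 = 0
      exact map_zero _
    · intro y hy
      obtain ⟨⟨c, x⟩, rfl⟩ := Submodule.Quotient.mk_surjective _ y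
      have hx : π x = 0 := hy
      refine ⟨c + g ⟨x, hx⟩, ?_⟩
      change (Submodule.Quotient.mk (c + g ⟨x, hx⟩, 0) : Y) = Submodule.Quotient.mk (c, x)
      rw [Submodule.Quotient.eq]
      exact ⟨⟨x, hx⟩, by simp⟩
  obtain ⟨s, hs⟩ := h Y i p hi hp hex
  have hs' : ∀ y, p (s y) = y := fun y => LinearMap.congr_fun hs y
  -- the retraction
  have hmem : ∀ y : X →₀ S, ∃ c : C, i c = Submodule.Quotient.mk (0, y) - s (π y) := by
    intro y
    have : (Submodule.Quotient.mk (0, y) - s (π y) : Y) ∈ LinearMap.range i := by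
      rw [hex, LinearMap.mem_ker, map_sub, hs']
      change π y - π y = 0
      exact sub_self _
    exact this
  choose ρ hρ using hmem
  refine ⟨{ toFun := ρ, map_add' := ?_, map_smul' := ?_ }, ?_⟩
  · intro x y
    apply hi
    rw [map_add, hρ, hρ, hρ]
    have : (Submodule.Quotient.mk (0, x + y) : Y) = Submodule.Quotient.mk (0, x) +
        Submodule.Quotient.mk (0, y) := by
      rw [← Submodule.Quotient.mk_add]
      simp
    rw [this, map_add, map_add]
    abel
  · intro r x
    apply hi
    rw [RingHom.id_apply, map_smul, hρ, hρ]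
    have : (Submodule.Quotient.mk (0, r • x) : Y) = r • Submodule.Quotient.mk (0, x) := by
      rw [← Submodule.Quotient.mk_smul]
      simp
    rw [this, map_smul, map_smul, smul_sub]
  · intro k
    apply hi
    have hk : π (k : X →₀ S) = 0 := k.2
    change i (ρ k) = i (g k)
    rw [hρ, hk, map_zero, sub_zero]
    change (Submodule.Quotient.mk (0, (k : X →₀ S)) : Y) = Submodule.Quotient.mk (g k, 0)
    rw [Submodule.Quotient.eq]
    refine ⟨-k, ?_⟩
    have := map_neg g k
    simp [this]

theorem extZero_of_extP (π : (X →₀ S) →ₗ[S] F) (hπ : Function.Surjective π)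
    (h : ExtP (LinearMap.ker π) C) : ExtZero S F C := by
  intro Y _ _ i p hi hp hex
  choose t ht using fun x : X => hp (π (Finsupp.single x 1))
  let τ : (X →₀ S) →ₗ[S] Y := Finsupp.linearCombination S t
  have hτ : ∀ v, p (τ v) = π v := by
    intro v
    have : p ∘ₗ τ = π := by
      apply Finsupp.lhom_ext
      intro x a
      simp only [τ, LinearMap.coe_comp, Function.comp_apply, Finsupp.linearCombination_single,
        map_smul, ht]
      rw [← map_smul, Finsupp.smul_single, smul_eq_mul, mul_one]
    exact LinearMap.congr_fun this v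
  have hmem : ∀ k : LinearMap.ker π, ∃ c : C, i c = τ k := by
    intro k
    have : τ k ∈ LinearMap.range i := by
      rw [hex, LinearMap.mem_ker, hτ]
      exact k.2
    exact this
  choose g hg using hmem
  let g' : LinearMap.ker π →ₗ[S] C :=
    { toFun := g
      map_add' := fun x y => hi (by rw [map_add, hg, hg, hg]; simp)
      map_smul' := fun r x => hi (by rw [RingHom.id_apply, map_smul, hg, hg]; simp) }
  obtain ⟨e, he⟩ := h g'
  obtain ⟨s, hs⟩ := exists_factor_of_surjective π (τ - i ∘ₗ e) hπ (by
    intro w hw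
    have h1 := he ⟨w, hw⟩
    have h2 := hg ⟨w, hw⟩
    simp only [LinearMap.sub_apply, LinearMap.coe_comp, Function.comp_apply]
    change e w = g ⟨w, hw⟩ at h1
    rw [h1, h2, sub_self])
  refine ⟨s, ?_⟩
  ext y
  obtain ⟨w, rfl⟩ := hπ y
  simp only [LinearMap.coe_comp, Function.comp_apply, hs, LinearMap.sub_apply, map_sub,
    LinearMap.id_apply, hτ]
  have : p (i (e w)) = 0 := by
    have : i (e w) ∈ LinearMap.ker p := by rw [← hex]; exact ⟨_, rfl⟩
    exact this
  rw [this, sub_zero]

end flat

end Pool.Agent.Q26.FP
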