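import Pool.Agent.Q26.FP.A

/-!
Cotorsion modules can be tested on flat modules generated by a family indexed by one fixed type.
-/

namespace Pool.Agent.Q26.FP

universe u

/-- Terms: the index type for generators of small pure submodules. -/
inductive Tm (R : Type u) : Type u
  | base : Tm R
  | zero : Tm R
  | add : Tm R → Tm R → Tm R
  | smul : R → Tm R → Tm R
  | wit1 (n : ℕ) (r : Fin n → R) (t : Fin n → Tm R) (j : ℕ) : Tm R
  | wit2 (n : ℕ) (r : Fin n → R) (t : Tm R) (j : Fin n) : Tm R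

namespace Tm

variable {R G : Type u} [Ring R] [AddCommGroup G] [Module R G]

/-- Evaluation of terms. -/
noncomputable def eval (g : G) (W1 : (n : ℕ) → (Fin n → R) → (Fin n → G) → ℕ → G)
    (W2 : (n : ℕ) → (Fin n → R) → G → Fin n → G) : Tm R → G
  | base => g
  | zero => 0
  | add s t => eval g W1 W2 s + eval g W1 W2 t
  | smul r t => r • eval g W1 W2 t
  | wit1 n r t j => W1 n r (fun i => eval g W1 W2 (t i)) j
  | wit2 n r t j => W2 n r (eval g W1 W2 t) j

end Tm

section small

variable {R G : Type u} [Ring R] [AddCommGroup G] [Module R G]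

theorem exists_small_pure (hG : IsFlat R G) (g : G) :
    ∃ X : Submodule R G, g ∈ X ∧ IsFlat R X ∧ IsFlat R (G ⧸ X) ∧
      ∃ e : Tm R → X, Function.Surjective e := by
  classical
  have h1 : ∀ (n : ℕ) (r : Fin n → R) (x : Fin n → G), ∃ y : ℕ → G, ∑ i, r i • x i = 0 →
      ∃ (m : ℕ) (a : Fin n → Fin m → R), (∀ i, x i = ∑ j : Fin m, a i j • y j) ∧
        ∀ j, ∑ i, r i * a i j = 0 := by
    intro n r x
    by_cases h : ∑ i, r i • x i = 0
    · obtain ⟨m, a, y, h2, h3⟩ := hG n r x h
      refine ⟨fun j => if hj : j < m then y ⟨j, hj⟩ else 0, fun _ => ⟨m, a, ?_, h3⟩⟩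
      intro i
      rw [h2 i]
      refine Finset.sum_congr rfl fun j _ => ?_
      simp [j.2]
    · exact ⟨fun _ => 0, fun h' => (h h').elim⟩
  choose W1 hW1 using h1
  have h2 : ∀ (n : ℕ) (r : Fin n → R) (x0 : G), ∃ v : Fin n → G,
      (∃ v' : Fin n → G, ∑ i, r i • v' i = x0) → ∑ i, r i • v i = x0 := by
    intro n r x0
    by_cases h : ∃ v' : Fin n → G, ∑ i, r i • v' i = x0
    · obtain ⟨v, hv⟩ := h
      exact ⟨v, fun _ => hv⟩
    · exact ⟨fun _ => 0, fun h' => (h h').elim⟩
  choose W2 hW2 using h2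
  let ev : Tm R → G := Tm.eval g W1 W2
  let X : Submodule R G :=
    { carrier := Set.range ev
      zero_mem' := ⟨Tm.zero, by simp only [ev, Tm.eval]⟩
      add_mem' := by
        rintro _ _ ⟨s, rfl⟩ ⟨t, rfl⟩
        exact ⟨Tm.add s t, by simp only [ev, Tm.eval]⟩
      smul_mem' := by
        rintro r _ ⟨t, rfl⟩
        exact ⟨Tm.smul r t, by simp only [ev, Tm.eval]⟩ }
  have hX : ∀ x : G, x ∈ X ↔ ∃ t, ev t = x := fun x => Iff.rfl
  refine ⟨X, ⟨Tm.base, by simp only [ev, Tm.eval]⟩, ?_, ?_, fun t => ⟨ev t, t, rfl⟩, ?_⟩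
  · -- `X` is flat
    intro n r x hrx
    have hrx' : ∑ i, r i • (x i : G) = 0 := by
      have := congrArg (fun z : X => (z : G)) hrx
      simpa using this
    choose t ht using fun i => (x i).2
    obtain ⟨m, a, h3, h4⟩ := hW1 n r (fun i => (x i : G)) hrx'
    refine ⟨m, a, fun j => ⟨W1 n r (fun i => (x i : G)) j, Tm.wit1 n r t j, ?_⟩, ?_, h4⟩
    · have : (fun i => Tm.eval g W1 W2 (t i)) = fun i => (x i : G) := by
        funext i
        exact ht i
      simp only [ev, Tm.eval, this]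
    · intro i
      apply Subtype.ext
      rw [h3 i]
      simp
  · -- the quotient is flat
    intro n r x hrx
    choose z hz using fun i => Submodule.Quotient.mk_surjective X (x i)
    have hmem : ∑ i, r i • z i ∈ X := by
      rw [← Submodule.Quotient.mk_eq_zero, ← hrx]
      change X.mkQ _ = _
      rw [map_sum]
      refine Finset.sum_congr rfl fun i _ => ?_
      rw [map_smul]
      exact congrArg _ (hz i)
    obtain ⟨t, ht⟩ := hmem
    have h3 := hW2 n r (ev t) ⟨z, ht.symm⟩
    have h4 : ∑ i, r i • (z i - W2 n r (ev t) i) = 0 := by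
      simp only [smul_sub, Finset.sum_sub_distrib]
      rw [h3, ← ht, sub_self]
    obtain ⟨m, a, y, h5, h6⟩ := hG n r _ h4
    refine ⟨m, a, fun j => Submodule.Quotient.mk (y j), ?_, h6⟩
    intro i
    have h7 : W2 n r (ev t) i ∈ X := ⟨Tm.wit2 n r t i, by simp only [ev, Tm.eval]⟩
    have h8 : x i = X.mkQ (z i - W2 n r (ev t) i) := by
      rw [map_sub]
      have : X.mkQ (W2 n r (ev t) i) = 0 := by
        rw [Submodule.mkQ_apply, Submodule.Quotient.mk_eq_zero]
        exact h7
      rw [this, sub_zero]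
      exact (hz i).symm
    rw [h8, h5 i, map_sum]
    exact Finset.sum_congr rfl fun j _ => map_smul _ _ _
  · rintro ⟨_, t, rfl⟩
    exact ⟨t, rfl⟩

end small

section cot

variable {R C : Type u} [Ring R] [AddCommGroup C] [Module R C]

/-- Flatness of a quotient, elementwise. -/
def RelFlat {R G : Type u} [Ring R] [AddCommGroup G] [Module R G] (N : Submodule R G) : Prop :=
  ∀ (n : ℕ) (r : Fin n → R) (x : Fin n → G), ∑ i, r i • x i ∈ N →
    ∃ (m : ℕ) (a : Fin n → Fin m → R) (y : Fin m → G),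
      (∀ i, x i - ∑ j, a i j • y j ∈ N) ∧ ∀ j, ∑ i, r i * a i j = 0

theorem RelFlat.isFlat {G : Type u} [AddCommGroup G] [Module R G] {N : Submodule R G}
    (h : RelFlat N) : IsFlat R (G ⧸ N) := by
  intro n r x hrx
  choose z hz using fun i => Submodule.Quotient.mk_surjective N (x i)
  have hmem : ∑ i, r i • z i ∈ N := by
    rw [← Submodule.Quotient.mk_eq_zero, ← hrx]
    change N.mkQ _ = _
    rw [map_sum]
    refine Finset.sum_congr rfl fun i _ => ?_
    rw [map_smul]
    exact congrArg _ (hz i)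
  obtain ⟨m, a, y, h1, h2⟩ := h n r z hmem
  refine ⟨m, a, fun j => Submodule.Quotient.mk (y j), ?_, h2⟩
  intro i
  have h3 : N.mkQ (z i - ∑ j, a i j • y j) = 0 := by
    rw [Submodule.mkQ_apply, Submodule.Quotient.mk_eq_zero]
    exact h1 i
  rw [map_sub, sub_eq_zero, map_sum] at h3
  rw [← hz i]
  change N.mkQ (z i) = _
  rw [h3]
  exact Finset.sum_congr rfl fun j _ => map_smul _ _ _

theorem relFlat_of_isFlat_quotient {G : Type u} [AddCommGroup G] [Module R G]
    {N : Submodule R G} (h : IsFlat R (G ⧸ N)) : RelFlat N := by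
  intro n r x hrx
  have h0 : ∑ i, r i • (Submodule.Quotient.mk (x i) : G ⧸ N) = 0 := by
    have h1 : N.mkQ (∑ i, r i • x i) = 0 := by
      rw [Submodule.mkQ_apply, Submodule.Quotient.mk_eq_zero]
      exact hrx
    rw [map_sum] at h1
    rw [← h1]
    exact Finset.sum_congr rfl fun j _ => (map_smul N.mkQ (r j) (x j)).symm
  obtain ⟨m, a, y, h1, h2⟩ := h n r _ h0
  choose z hz using fun j => Submodule.Quotient.mk_surjective N (y j)
  refine ⟨m, a, z, ?_, h2⟩
  intro i
  rw [← Submodule.Quotient.mk_eq_zero]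
  change N.mkQ _ = _
  rw [map_sub, sub_eq_zero, map_sum]
  change (Submodule.Quotient.mk (x i) : G ⧸ N) = _
  rw [h1 i]
  refine Finset.sum_congr rfl fun j _ => ?_
  rw [map_smul, ← hz j]
  rfl

theorem isCotorsion_of_small
    (hC : ∀ K : Submodule R (Tm R →₀ R), VPure K → ExtP K C) : IsCotorsion R C := by
  classical
  intro G _ _ hG Y _ _ i p hi hp hex
  have hpi : ∀ c, p (i c) = 0 := by
    intro c
    have : i c ∈ LinearMap.ker p := by rw [← hex]; exact ⟨c, rfl⟩
    exact this
  let 𝒮 : Set (Submodule R Y) := {Γ | (∀ y ∈ Γ, p y = 0 → y = 0) ∧ RelFlat (Γ.map p)}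
  have hbot : (⊥ : Submodule R Y) ∈ 𝒮 := by
    refine ⟨fun y hy _ => (Submodule.mem_bot R).mp hy, ?_⟩
    intro n r x hrx
    rw [Submodule.map_bot, Submodule.mem_bot] at hrx
    obtain ⟨m, a, y, h1, h2⟩ := hG n r x hrx
    refine ⟨m, a, y, fun k => ?_, h2⟩
    rw [← h1 k, sub_self]
    exact Submodule.zero_mem _
  obtain ⟨Γ, -, hΓ⟩ := zorn_le_nonempty₀ 𝒮 (by
    intro c hc hchain y0 hy0
    have hdir : DirectedOn (· ≤ ·) c := hchain.directedOn
    refine ⟨sSup c, ⟨?_, ?_⟩, fun z hz => le_sSup hz⟩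
    · intro y hy hpy
      obtain ⟨Γ', hΓ', hyΓ'⟩ := (Submodule.mem_sSup_of_directed ⟨y0, hy0⟩ hdir).mp hy
      exact (hc hΓ').1 y hyΓ' hpy
    · intro n r x hrx
      obtain ⟨y, hy, hpy⟩ := hrx
      obtain ⟨Γ', hΓ', hyΓ'⟩ := (Submodule.mem_sSup_of_directed ⟨y0, hy0⟩ hdir).mp hy
      obtain ⟨m, a, z, h1, h2⟩ := (hc hΓ').2 n r x ⟨y, hyΓ', hpy⟩
      exact ⟨m, a, z, fun k => Submodule.map_mono (le_sSup hΓ') (h1 k), h2⟩) ⊥ hbot
  have hΓS : Γ ∈ 𝒮 := hΓ.prop
  set N : Submodule R G := Γ.map p with hN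
  have htop : ∀ g : G, g ∈ N := by
    intro g
    by_contra hg
    have hflat : IsFlat R (G ⧸ N) := hΓS.2.isFlat
    obtain ⟨X, hgX, hXf, hXq, e, he⟩ := exists_small_pure hflat (Submodule.Quotient.mk g)
    choose gt hgt using fun t : Tm R => Submodule.Quotient.mk_surjective N (e t : G ⧸ N)
    choose yt hyt using fun t : Tm R => hp (gt t)
    let lam : (Tm R →₀ R) →ₗ[R] Y := Finsupp.linearCombination R yt
    let πX : (Tm R →₀ R) →ₗ[R] X := Finsupp.linearCombination R e
    have hπX : Function.Surjective πX := by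
      intro x
      obtain ⟨t, rfl⟩ := he x
      exact ⟨Finsupp.single t 1, by simp [πX]⟩
    have hlam : ∀ v, (Submodule.Quotient.mk (p (lam v)) : G ⧸ N) = πX v := by
      intro v
      have : N.mkQ ∘ₗ p ∘ₗ lam = X.subtype ∘ₗ πX := by
        apply Finsupp.lhom_ext
        intro t a
        simp only [LinearMap.coe_comp, Function.comp_apply, lam, πX,
          Finsupp.linearCombination_single, map_smul, hyt]
        rw [Submodule.mkQ_apply, hgt]
        rfl
      exact LinearMap.congr_fun this v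
    have hK : VPure (LinearMap.ker πX) := vpure_ker hXf πX hπX
    have hex1 : ∀ k : LinearMap.ker πX, ∃ c : C, lam k - i c ∈ Γ := by
      intro k
      have h1 : p (lam k) ∈ N := by
        rw [← Submodule.Quotient.mk_eq_zero, hlam]
        have : πX k = 0 := k.2
        rw [this]
        rfl
      obtain ⟨γ, hγ, hpγ⟩ := h1
      have h2 : lam k - γ ∈ LinearMap.range i := by
        rw [hex, LinearMap.mem_ker, map_sub, hpγ, sub_self]
      obtain ⟨c, hc⟩ := h2
      refine ⟨c, ?_⟩
      rw [hc]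
      simpa using hγ
    have huniq : ∀ (y : Y) (c c' : C), y - i c ∈ Γ → y - i c' ∈ Γ → c = c' := by
      intro y c c' h1 h2
      have h3 : i (c' - c) ∈ Γ := by
        have := Γ.sub_mem h1 h2
        have h4 : y - i c - (y - i c') = i (c' - c) := by
          rw [map_sub]; abel
        rwa [h4] at this
      have h4 := hΓS.1 _ h3 (hpi _)
      have h5 : c' - c = 0 := hi (by rw [h4, map_zero])
      exact (sub_eq_zero.mp h5).symm
    choose h hh using hex1
    let h' : LinearMap.ker πX →ₗ[R] C :=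
      { toFun := h
        map_add' := fun x y => huniq (lam (x + y : LinearMap.ker πX)) _ _ (hh _) (by
          have := Γ.add_mem (hh x) (hh y)
          have h4 : lam x - i (h x) + (lam y - i (h y)) =
              lam (x + y : LinearMap.ker πX) - i (h x + h y) := by
            rw [Submodule.coe_add, map_add, map_add]; abel
          rwa [h4] at this)
        map_smul' := fun r x => huniq (lam (r • x : LinearMap.ker πX)) _ _ (hh _) (by
          have := Γ.smul_mem r (hh x)
          have h4 : r • (lam x - i (h x)) =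
              lam (r • x : LinearMap.ker πX) - i (r • h x) := by
            rw [Submodule.coe_smul, map_smul, map_smul, smul_sub]
          rwa [h4] at this) }
    obtain ⟨e', he'⟩ := hC _ hK h'
    let lam' : (Tm R →₀ R) →ₗ[R] Y := lam - i ∘ₗ e'
    have hlamK : ∀ v, πX v = 0 → lam' v ∈ Γ := by
      intro v hv
      have h1 := he' ⟨v, hv⟩
      change e' v = h ⟨v, hv⟩ at h1
      have h2 := hh ⟨v, hv⟩
      simp only [lam', LinearMap.sub_apply, LinearMap.coe_comp, Function.comp_apply, h1]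
      exact h2
    have hplam : ∀ v, p (lam' v) = p (lam v) := by
      intro v
      simp only [lam', LinearMap.sub_apply, LinearMap.coe_comp, Function.comp_apply, map_sub,
        hpi, sub_zero]
    let Γ' : Submodule R Y := Γ ⊔ LinearMap.range lam'
    have hΓ'1 : ∀ y ∈ Γ', p y = 0 → y = 0 := by
      intro y hy hpy
      obtain ⟨γ, hγ, _, ⟨v, rfl⟩, rfl⟩ := Submodule.mem_sup.mp hy
      have h1 : p (lam v) = - p γ := by
        rw [← hplam]
        rw [map_add] at hpy
        exact (neg_eq_of_add_eq_zero_right hpy).symm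
      have h2 : πX v = 0 := by
        apply Subtype.ext
        rw [← hlam, h1]
        change _ = (0 : G ⧸ N)
        rw [Submodule.Quotient.mk_eq_zero]
        exact N.neg_mem ⟨γ, hγ, rfl⟩
      exact hΓS.1 _ (Γ.add_mem hγ (hlamK v h2)) hpy
    have hmap1 : ∀ x ∈ Γ'.map p, (Submodule.Quotient.mk x : G ⧸ N) ∈ X := by
      rintro _ ⟨y, hy, rfl⟩
      obtain ⟨γ, hγ, _, ⟨v, rfl⟩, rfl⟩ := Submodule.mem_sup.mp hy
      have h1 : (Submodule.Quotient.mk (p (γ + lam' v)) : G ⧸ N) = πX v := by
        rw [← hlam, ← hplam, Submodule.Quotient.eq, map_add, add_sub_cancel_right]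
        exact ⟨γ, hγ, rfl⟩
      rw [h1]
      exact (πX v).2
    have hmap2 : ∀ x : G, (Submodule.Quotient.mk x : G ⧸ N) ∈ X → x ∈ Γ'.map p := by
      intro x hx
      obtain ⟨t, ht⟩ := he ⟨_, hx⟩
      have h1 : (Submodule.Quotient.mk x : G ⧸ N) = Submodule.Quotient.mk (gt t) := by
        rw [hgt, ht]
      rw [Submodule.Quotient.eq] at h1
      obtain ⟨γ, hγ, hpγ⟩ := h1
      refine ⟨γ + lam' (Finsupp.single t 1),
        Submodule.add_mem_sup hγ ⟨_, rfl⟩, ?_⟩
      rw [map_add, hpγ, hplam]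
      simp only [lam, Finsupp.linearCombination_single, one_smul, hyt]
      abel
    have hΓ'S : Γ' ∈ 𝒮 := by
      refine ⟨hΓ'1, ?_⟩
      intro n r x hrx
      have h1 := hmap1 _ hrx
      have h2 : ∑ i, r i • (Submodule.Quotient.mk (x i) : G ⧸ N) ∈ X := by
        have h3 : (Submodule.Quotient.mk (∑ i, r i • x i) : G ⧸ N) =
            ∑ i, r i • (Submodule.Quotient.mk (x i) : G ⧸ N) := by
          change N.mkQ _ = _
          rw [map_sum]
          exact Finset.sum_congr rfl fun j _ => map_smul _ _ _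
        rwa [h3] at h1
      obtain ⟨m, a, y, h3, h4⟩ := relFlat_of_isFlat_quotient hXq n r _ h2
      choose z hz using fun j => Submodule.Quotient.mk_surjective N (y j)
      refine ⟨m, a, z, ?_, h4⟩
      intro k
      apply hmap2
      have h5 : (Submodule.Quotient.mk (x k - ∑ j, a k j • z j) : G ⧸ N) =
          Submodule.Quotient.mk (x k) - ∑ j, a k j • y j := by
        change N.mkQ _ = _
        rw [map_sub, map_sum]
        congr 1
        refine Finset.sum_congr rfl fun j _ => ?_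
        rw [map_smul, ← hz j]
        rfl
      rw [h5]
      exact h3 k
    have hle : Γ' ≤ Γ := hΓ.le_of_ge hΓ'S le_sup_left
    exact hg (Submodule.map_mono hle (hmap2 g hgX))
  obtain ⟨s, hs⟩ := exists_factor_of_surjective (p ∘ₗ Γ.subtype) Γ.subtype (by
    intro g
    obtain ⟨γ, hγ, h1⟩ := htop g
    exact ⟨⟨γ, hγ⟩, h1⟩) (by
    intro w hw
    exact hΓS.1 _ w.2 hw)
  refine ⟨s, ?_⟩
  ext g
  obtain ⟨γ, hγ, h1⟩ := htop g
  have h2 := hs ⟨γ, hγ⟩
  simp only [LinearMap.coe_comp, Function.comp_apply, Submodule.subtype_apply] at h2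
  rw [h1] at h2
  simp only [LinearMap.coe_comp, Function.comp_apply, LinearMap.id_apply, h2, h1]

end cot

end Pool.Agent.Q26.FP
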