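import Pool.Agent.Q26.FP.B

/-!
Restriction of submodules of free modules to a subring and a subset of the basis.
-/

namespace Pool.Agent.Q26.FP

universe u

section rest

variable {T X : Type u} [Ring T]

/-- `p` is supported on `X0` with coefficients in `T0`. -/
def Over (T0 : Subring T) (X0 : Set X) (p : X →₀ T) : Prop :=
  ∀ x ∈ p.support, x ∈ X0 ∧ p x ∈ T0

/-- The elements of `K` which live over `T0`, `X0`. -/
def rest (T0 : Subring T) (X0 : Set X) (K : Submodule T (X →₀ T)) : Set (X →₀ T) :=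
  {k | k ∈ K ∧ Over T0 X0 k}

variable {T0 : Subring T} {X0 : Set X} {K : Submodule T (X →₀ T)}

theorem Over.coeff {p : X →₀ T} (h : Over T0 X0 p) (x : X) : p x ∈ T0 := by
  by_cases hx : x ∈ p.support
  · exact (h x hx).2
  · rw [Finsupp.notMem_support_iff.mp hx]
    exact T0.zero_mem

theorem Over.mono {T1 : Subring T} {X1 : Set X} (hT : T0 ≤ T1) (hX : X0 ⊆ X1) {p : X →₀ T}
    (h : Over T0 X0 p) : Over T1 X1 p := fun x hx => ⟨hX (h x hx).1, hT (h x hx).2⟩

theorem Over.zero : Over T0 X0 (0 : X →₀ T) := by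
  intro x hx
  simp at hx

theorem Over.add {p q : X →₀ T} (hp : Over T0 X0 p) (hq : Over T0 X0 q) :
    Over T0 X0 (p + q) := by
  classical
  intro x hx
  have := Finsupp.support_add hx
  rcases Finset.mem_union.mp this with h | h
  · exact ⟨(hp x h).1, by rw [Finsupp.add_apply]; exact T0.add_mem (hp.coeff x) (hq.coeff x)⟩
  · exact ⟨(hq x h).1, by rw [Finsupp.add_apply]; exact T0.add_mem (hp.coeff x) (hq.coeff x)⟩

theorem Over.smul {t : T} (ht : t ∈ T0) {p : X →₀ T} (hp : Over T0 X0 p) :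
    Over T0 X0 (t • p) := by
  intro x hx
  exact ⟨(hp x (Finsupp.support_smul hx)).1, by
    rw [Finsupp.smul_apply, smul_eq_mul]; exact T0.mul_mem ht (hp.coeff x)⟩

theorem Over.neg {p : X →₀ T} (hp : Over T0 X0 p) : Over T0 X0 (-p) := by
  intro x hx
  rw [Finsupp.support_neg] at hx
  exact ⟨(hp x hx).1, by rw [Finsupp.neg_apply]; exact T0.neg_mem (hp.coeff x)⟩

theorem Over.sub {p q : X →₀ T} (hp : Over T0 X0 p) (hq : Over T0 X0 q) :
    Over T0 X0 (p - q) := by
  rw [sub_eq_add_neg]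
  exact hp.add hq.neg

theorem Over.single {x : X} {t : T} (hx : x ∈ X0) (ht : t ∈ T0) :
    Over T0 X0 (Finsupp.single x t) := by
  intro y hy
  have := Finsupp.support_single_subset hy
  rw [Finset.mem_singleton] at this
  subst this
  exact ⟨hx, by simpa using ht⟩

theorem rest_mono {T1 : Subring T} {X1 : Set X} (hT : T0 ≤ T1) (hX : X0 ⊆ X1) :
    rest T0 X0 K ⊆ rest T1 X1 K := fun _ h => ⟨h.1, h.2.mono hT hX⟩

theorem rest_zero : (0 : X →₀ T) ∈ rest T0 X0 K := ⟨K.zero_mem, Over.zero⟩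

theorem rest_add {p q : X →₀ T} (hp : p ∈ rest T0 X0 K) (hq : q ∈ rest T0 X0 K) :
    p + q ∈ rest T0 X0 K := ⟨K.add_mem hp.1 hq.1, hp.2.add hq.2⟩

theorem rest_sub {p q : X →₀ T} (hp : p ∈ rest T0 X0 K) (hq : q ∈ rest T0 X0 K) :
    p - q ∈ rest T0 X0 K := ⟨K.sub_mem hp.1 hq.1, hp.2.sub hq.2⟩

theorem rest_smul {t : T} (ht : t ∈ T0) {p : X →₀ T} (hp : p ∈ rest T0 X0 K) :
    t • p ∈ rest T0 X0 K := ⟨K.smul_mem _ hp.1, hp.2.smul ht⟩

theorem rest_sum {ι : Type*} (s : Finset ι) (p : ι → X →₀ T)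
    (hp : ∀ i ∈ s, p i ∈ rest T0 X0 K) : ∑ i ∈ s, p i ∈ rest T0 X0 K := by
  classical
  induction s using Finset.induction_on with
  | empty => simpa using rest_zero
  | insert a s ha ih =>
    rw [Finset.sum_insert ha]
    exact rest_add (hp a (Finset.mem_insert_self _ _))
      (ih fun i hi => hp i (Finset.mem_insert_of_mem hi))

/-- Additivity and homogeneity on the restricted submodule. -/
def LinOn {C : Type u} [AddCommGroup C] [Module T C] (T0 : Subring T) (X0 : Set X)
    (K : Submodule T (X →₀ T)) (ψ : (X →₀ T) → C) : Prop :=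
  (∀ k ∈ rest T0 X0 K, ∀ l ∈ rest T0 X0 K, ψ (k + l) = ψ k + ψ l) ∧
  ∀ t ∈ T0, ∀ k ∈ rest T0 X0 K, ψ (t • k) = t • ψ k

variable {C : Type u} [AddCommGroup C] [Module T C]

theorem LinOn.map_zero {ψ : (X →₀ T) → C} (h : LinOn T0 X0 K ψ) : ψ 0 = 0 := by
  have := h.1 0 rest_zero 0 rest_zero
  rw [add_zero] at this
  exact left_eq_add.mp this

theorem LinOn.map_sum {ψ : (X →₀ T) → C} (h : LinOn T0 X0 K ψ) {ι : Type*} (s : Finset ι)
    (t : ι → T) (p : ι → X →₀ T) (ht : ∀ i ∈ s, t i ∈ T0) (hp : ∀ i ∈ s, p i ∈ rest T0 X0 K) :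
    ψ (∑ i ∈ s, t i • p i) = ∑ i ∈ s, t i • ψ (p i) := by
  classical
  induction s using Finset.induction_on with
  | empty => simpa using h.map_zero
  | insert a s ha ih =>
    rw [Finset.sum_insert ha, Finset.sum_insert ha]
    have h1 : ∀ i ∈ s, t i ∈ T0 := fun i hi => ht i (Finset.mem_insert_of_mem hi)
    have h2 : ∀ i ∈ s, p i ∈ rest T0 X0 K := fun i hi => hp i (Finset.mem_insert_of_mem hi)
    have h3 := ht a (Finset.mem_insert_self _ _)
    have h4 := hp a (Finset.mem_insert_self _ _)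
    rw [h.1 _ (rest_smul h3 h4) _ (rest_sum _ _ fun i hi => rest_smul (h1 i hi) (h2 i hi)),
      h.2 _ h3 _ h4, ih h1 h2]

theorem LinOn.mono {T1 : Subring T} {X1 : Set X} (hT : T0 ≤ T1) (hX : X0 ⊆ X1)
    {ψ : (X →₀ T) → C} (h : LinOn T1 X1 K ψ) : LinOn T0 X0 K ψ :=
  ⟨fun k hk l hl => h.1 k (rest_mono hT hX hk) l (rest_mono hT hX hl),
    fun t ht k hk => h.2 t (hT ht) k (rest_mono hT hX hk)⟩

theorem linOn_linear (g : (X →₀ T) →ₗ[T] C) : LinOn T0 X0 K g :=
  ⟨fun k _ l _ => map_add g k l, fun t _ k _ => map_smul g t k⟩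

theorem LinOn.sub {ψ φ : (X →₀ T) → C} (h : LinOn T0 X0 K ψ) (h' : LinOn T0 X0 K φ) :
    LinOn T0 X0 K (fun k => ψ k - φ k) :=
  ⟨fun k hk l hl => by
      change ψ (k + l) - φ (k + l) = ψ k - φ k + (ψ l - φ l)
      rw [h.1 k hk l hl, h'.1 k hk l hl]; abel,
    fun t ht k hk => by
      change ψ (t • k) - φ (t • k) = t • (ψ k - φ k)
      rw [h.2 t ht k hk, h'.2 t ht k hk, smul_sub]⟩

/-- A map with values in `Q` composed with an injection. -/
theorem LinOn.of_injective {I : Type u} [AddCommGroup I] [Module T I] (ι : C →ₗ[T] I)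
    (hι : Function.Injective ι) {ψ : (X →₀ T) → C} {φ : (X →₀ T) → I}
    (h : ∀ k ∈ rest T0 X0 K, ι (ψ k) = φ k) (hφ : LinOn T0 X0 K φ) : LinOn T0 X0 K ψ :=
  ⟨fun k hk l hl => hι (by
    rw [_root_.map_add, h k hk, h l hl, h _ (rest_add hk hl), hφ.1 k hk l hl]),
    fun t ht k hk => hι (by
      rw [_root_.map_smul, h k hk, h _ (rest_smul ht hk), hφ.2 t ht k hk])⟩

/-- The restriction is closed under enough endomorphisms. -/
def ThetaClosed (T0 : Subring T) (X0 : Set X) (K : Submodule T (X →₀ T)) : Prop :=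
  ∀ k ∈ rest T0 X0 K, ∃ θ : (X →₀ T) →ₗ[T] (X →₀ T), θ k = k ∧
    ∀ x, θ (Finsupp.single x 1) ∈ rest T0 X0 K

theorem lin_eq_sum {M : Type*} [AddCommGroup M] [Module T M] (θ : (X →₀ T) →ₗ[T] M)
    (p : X →₀ T) : θ p = ∑ x ∈ p.support, p x • θ (Finsupp.single x 1) := by
  conv_lhs => rw [← Finsupp.sum_single p, Finsupp.sum, map_sum]
  refine Finset.sum_congr rfl fun x _ => ?_
  rw [← map_smul, Finsupp.smul_single, smul_eq_mul, mul_one]

theorem theta_maps {θ : (X →₀ T) →ₗ[T] (X →₀ T)}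
    (h : ∀ x, θ (Finsupp.single x 1) ∈ rest T0 X0 K) {p : X →₀ T} (hp : Over T0 X0 p) :
    θ p ∈ rest T0 X0 K := by
  rw [lin_eq_sum]
  exact rest_sum _ _ fun x _ => rest_smul (hp.coeff x) (h x)

theorem theta_mem {θ : (X →₀ T) →ₗ[T] (X →₀ T)}
    (h : ∀ x, θ (Finsupp.single x 1) ∈ rest T0 X0 K) (p : X →₀ T) : θ p ∈ K := by
  rw [lin_eq_sum]
  exact Submodule.sum_mem _ fun x _ => K.smul_mem _ (h x).1

theorem theta_finset (hθ : ThetaClosed T0 X0 K) (s : Finset (X →₀ T))
    (hs : ∀ k ∈ s, k ∈ rest T0 X0 K) : ∃ θ : (X →₀ T) →ₗ[T] (X →₀ T), (∀ k ∈ s, θ k = k) ∧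
      ∀ x, θ (Finsupp.single x 1) ∈ rest T0 X0 K := by
  classical
  induction s using Finset.induction_on with
  | empty => exact ⟨0, by simp, fun x => by simpa using rest_zero⟩
  | insert a s ha ih =>
    obtain ⟨Θ, h1, h2⟩ := ih fun k hk => hs k (Finset.mem_insert_of_mem hk)
    have ha' := hs a (Finset.mem_insert_self _ _)
    obtain ⟨θ, h3, h4⟩ := hθ (a - Θ a) (rest_sub ha' (theta_maps h2 ha'.2))
    refine ⟨Θ + θ - θ ∘ₗ Θ, ?_, ?_⟩
    · intro k hk
      rcases Finset.mem_insert.mp hk with rfl | hk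
      · simp only [LinearMap.sub_apply, LinearMap.add_apply, LinearMap.coe_comp,
          Function.comp_apply]
        rw [map_sub] at h3
        have : Θ k + θ k - θ (Θ k) = Θ k + (θ k - θ (Θ k)) := by abel
        rw [this, h3]
        abel
      · simp only [LinearMap.sub_apply, LinearMap.add_apply, LinearMap.coe_comp,
          Function.comp_apply, h1 k hk]
        abel
    · intro x
      simp only [LinearMap.sub_apply, LinearMap.add_apply, LinearMap.coe_comp,
          Function.comp_apply]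
      exact rest_sub (rest_add (h2 x) (h4 x)) (theta_maps h4 (h2 x).2)

/-- Extension of homomorphisms on the restricted submodule. -/
theorem extend_of_theta (hθ : ThetaClosed T0 X0 K)
    (hC : ∀ K' : Submodule T (X →₀ T), VPure K' → ExtP K' C)
    (ψ : (X →₀ T) → C) (hψ : LinOn T0 X0 K ψ) :
    ∃ e : X → C, ∀ k ∈ rest T0 X0 K, ψ k = Finsupp.linearCombination T e k := by
  classical
  let E : (rest T0 X0 K →₀ T) →ₗ[T] (X →₀ T) :=
    Finsupp.linearCombination T (fun k => (k : X →₀ T))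
  let F : (rest T0 X0 K →₀ T) →ₗ[T] C := Finsupp.linearCombination T (fun k => ψ k)
  have hEF : ∀ w, E w = 0 → F w = 0 := by
    intro w hw
    obtain ⟨θ, h1, h2⟩ := theta_finset hθ (Finset.image Subtype.val w.support) (by
      intro k hk
      obtain ⟨k', _, rfl⟩ := Finset.mem_image.mp hk
      exact k'.2)
    let χ : (X →₀ T) →ₗ[T] C :=
      Finsupp.linearCombination T (fun x => ψ (θ (Finsupp.single x 1)))
    have hχ : ∀ k ∈ w.support, χ k = ψ k := by
      intro k hk
      have h3 : θ k = k := h1 k (Finset.mem_image.mpr ⟨k, hk, rfl⟩)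
      conv_rhs => rw [← h3, lin_eq_sum]
      rw [hψ.map_sum _ _ _ (fun x _ => k.2.2.coeff x) (fun x _ => h2 x)]
      rw [Finsupp.linearCombination_apply, Finsupp.sum]
    have h4 : χ (E w) = F w := by
      simp only [E, F, Finsupp.linearCombination_apply, Finsupp.sum]
      rw [map_sum]
      refine Finset.sum_congr rfl fun k hk => ?_
      rw [map_smul, hχ k hk]
    rw [← h4, hw, map_zero]
  obtain ⟨s, hs⟩ := exists_factor E F hEF
  have hV : VPure (LinearMap.range E) := by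
    rintro _ ⟨w, rfl⟩
    obtain ⟨θ, h1, h2⟩ := theta_finset hθ (Finset.image Subtype.val w.support) (by
      intro k hk
      obtain ⟨k', _, rfl⟩ := Finset.mem_image.mp hk
      exact k'.2)
    refine ⟨θ, ?_, ?_⟩
    · intro p
      rw [lin_eq_sum]
      refine Submodule.sum_mem _ fun x _ => Submodule.smul_mem _ _ ?_
      exact ⟨Finsupp.single ⟨_, h2 x⟩ 1, by simp [E]⟩
    · simp only [E, Finsupp.linearCombination_apply, Finsupp.sum]
      rw [map_sum]
      refine Finset.sum_congr rfl fun k hk => ?_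
      rw [map_smul, h1 k (Finset.mem_image.mpr ⟨k, hk, rfl⟩)]
  obtain ⟨g, hg⟩ := hC _ hV s
  refine ⟨fun x => g (Finsupp.single x 1), ?_⟩
  intro k hk
  have h1 : E (Finsupp.single ⟨k, hk⟩ 1) = k := by simp [E]
  have h2 := hg ⟨E (Finsupp.single ⟨k, hk⟩ 1), _, rfl⟩
  rw [hs] at h2
  simp only [F, Finsupp.linearCombination_single, one_smul] at h2
  rw [h1] at h2
  rw [← h2, Finsupp.linearCombination_apply, Finsupp.sum]
  exact lin_eq_sum g k

end rest

section lift

variable {T X : Type u} [Ring T] {T0 : Subring T} {X0 : Set X} {K : Submodule T (X →₀ T)}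
  {I Q : Type u} [AddCommGroup I] [Module T I] [AddCommGroup Q] [Module T Q]

/-- Lifting along a surjection when the restricted submodule is countable. -/
theorem lift_of_countable (hθ : ThetaClosed T0 X0 K) (hc : (rest T0 X0 K).Countable)
    (q : I →ₗ[T] Q) (hq : Function.Surjective q) (h : (X →₀ T) → Q) (hh : LinOn T0 X0 K h) :
    ∃ g : (X →₀ T) → I, LinOn T0 X0 K g ∧ ∀ k ∈ rest T0 X0 K, q (g k) = h k := by
  classical
  obtain ⟨en, hen⟩ := hc.exists_eq_range ⟨0, rest_zero⟩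
  have hsel : ∀ v : X →₀ T, ∃ θ : (X →₀ T) →ₗ[T] (X →₀ T), (v ∈ rest T0 X0 K → θ v = v) ∧
      ∀ x, θ (Finsupp.single x 1) ∈ rest T0 X0 K := by
    intro v
    by_cases hv : v ∈ rest T0 X0 K
    · obtain ⟨θ, h1, h2⟩ := hθ v hv
      exact ⟨θ, fun _ => h1, h2⟩
    · exact ⟨0, fun h' => (hv h').elim, fun x => by simpa using rest_zero⟩
  choose sel hsel1 hsel2 using hsel
  let U : ℕ → ((X →₀ T) →ₗ[T] (X →₀ T)) := fun n =>
    Nat.rec LinearMap.id (fun n V => V - (sel (V (en n))) ∘ₗ V) n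
  have hU0 : U 0 = LinearMap.id := rfl
  let θ : ℕ → ((X →₀ T) →ₗ[T] (X →₀ T)) := fun n => sel (U n (en n))
  have hUs : ∀ n p, U (n + 1) p = U n p - θ n (U n p) := fun n p => rfl
  have hUr : ∀ n, ∀ p ∈ rest T0 X0 K, U n p ∈ rest T0 X0 K := by
    intro n
    induction n with
    | zero => intro p hp; exact hp
    | succ n ih =>
      intro p hp
      rw [hUs]
      exact rest_sub (ih p hp) (theta_maps (hsel2 _) (ih p hp).2)
  have hen' : ∀ n, en n ∈ rest T0 X0 K := fun n => by rw [hen]; exact ⟨n, rfl⟩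
  have hkill : ∀ n m, n < m → U m (en n) = 0 := by
    intro n m hm
    induction m with
    | zero => omega
    | succ m ih =>
      rw [hUs]
      rcases Nat.lt_succ_iff_lt_or_eq.mp hm with h1 | h1
      · rw [ih h1, map_zero, sub_zero]
      · subst h1
        rw [show θ n (U n (en n)) = U n (en n) from hsel1 _ (hUr n _ (hen' n)), sub_self]
  have hfin : ∀ k ∈ rest T0 X0 K, ∃ N, ∀ m, N ≤ m → U m k = 0 := by
    intro k hk
    rw [hen] at hk
    obtain ⟨n, rfl⟩ := hk
    exact ⟨n + 1, fun m hm => hkill n m hm⟩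
  let gg : ℕ → ((X →₀ T) →ₗ[T] I) := fun n =>
    Finsupp.linearCombination T (fun x => Function.surjInv hq (h (θ n (Finsupp.single x 1))))
  have hgg : ∀ n, ∀ p ∈ rest T0 X0 K, q (gg n p) = h (θ n p) := by
    intro n p hp
    rw [lin_eq_sum (θ n) p, hh.map_sum _ _ _ (fun x _ => hp.2.coeff x) (fun x _ => hsel2 _ x)]
    simp only [gg, Finsupp.linearCombination_apply, Finsupp.sum]
    rw [map_sum]
    refine Finset.sum_congr rfl fun x _ => ?_
    rw [map_smul, Function.surjInv_eq hq]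
  have hsupp : ∀ k ∈ rest T0 X0 K, (Function.support fun n => gg n (U n k)).Finite := by
    intro k hk
    obtain ⟨N, hN⟩ := hfin k hk
    refine (Finset.range N).finite_toSet.subset ?_
    intro n hn
    by_contra h1
    have : N ≤ n := by simpa using h1
    exact hn (by simp [hN n this])
  refine ⟨fun k => ∑ᶠ n, gg n (U n k), ⟨?_, ?_⟩, ?_⟩
  · intro k hk l hl
    rw [← finsum_add_distrib (hsupp k hk) (hsupp l hl)]
    exact finsum_congr fun n => by simp
  · intro t ht k hk
    rw [smul_finsum' t (hsupp k hk)]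
    exact finsum_congr fun n => by simp
  · intro k hk
    obtain ⟨N, hN⟩ := hfin k hk
    have h1 : (∑ᶠ n, gg n (U n k)) = ∑ n ∈ Finset.range N, gg n (U n k) := by
      apply finsum_eq_sum_of_support_subset
      intro n hn
      by_contra h1
      have : N ≤ n := by simpa using h1
      exact hn (by simp [hN n this])
    change q (∑ᶠ n, gg n (U n k)) = h k
    rw [h1, map_sum]
    have h2 : ∀ n ∈ Finset.range N, q (gg n (U n k)) = h (U n k) - h (U (n + 1) k) := by
      intro n _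
      rw [hgg n _ (hUr n k hk), hUs]
      have h3 := hUr (n + 1) k hk
      have h4 : θ n (U n k) ∈ rest T0 X0 K := theta_maps (hsel2 _) (hUr n k hk).2
      have h5 := hh.1 _ (by rw [← hUs]; exact h3 : U n k - θ n (U n k) ∈ rest T0 X0 K) _ h4
      rw [sub_add_cancel] at h5
      rw [h5]
      abel
    rw [Finset.sum_congr rfl h2, Finset.sum_range_sub', hN N le_rfl, hh.map_zero, sub_zero]
    rfl

end lift

end Pool.Agent.Q26.FP
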