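import Pool.Agent.Q26.FP.C

/-!
Induction over the cardinality of a set of generators of a restriction.
-/

namespace Pool.Agent.Q26.FP

universe u

open Cardinal

/-- A system of restrictions of `L`, indexed by the subsets of `Ω`. -/
structure Sys {A : Type u} [Ring A] (Ω : Type u) {F : Type u} (L : Submodule A (F →₀ A)) where
  /-- the subring -/
  AM : Set Ω → Subring A
  /-- the subset of the basis -/
  XM : Set Ω → Set F
  monoA : ∀ {S S' : Set Ω}, S ⊆ S' → AM S ≤ AM S'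
  monoX : ∀ {S S' : Set Ω}, S ⊆ S' → XM S ⊆ XM S'
  contA : ∀ c : Set (Set Ω), c.Nonempty → DirectedOn (· ⊆ ·) c → ∀ a ∈ AM (⋃₀ c),
    ∃ S ∈ c, a ∈ AM S
  contX : ∀ c : Set (Set Ω), c.Nonempty → DirectedOn (· ⊆ ·) c → ∀ x ∈ XM (⋃₀ c),
    ∃ S ∈ c, x ∈ XM S
  ctA : ∀ S : Set Ω, S.Countable → (AM S : Set A).Countable
  ctX : ∀ S : Set Ω, S.Countable → (XM S).Countable
  theta : ∀ S : Set Ω, ThetaClosed (AM S) (XM S) L

section

variable {A Ω F : Type u} [Ring A] {L : Submodule A (F →₀ A)} (σ : Sys Ω L)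
  {C I Q : Type u} [AddCommGroup C] [Module A C] [AddCommGroup I] [Module A I]
  [AddCommGroup Q] [Module A Q]

/-- The extension property at `S`. -/
def PE (C : Type u) [AddCommGroup C] [Module A C] (S : Set Ω) : Prop :=
  ∀ ψ : (F →₀ A) → C, LinOn (σ.AM S) (σ.XM S) L ψ →
    ∃ e : F → C, ∀ k ∈ rest (σ.AM S) (σ.XM S) L, ψ k = Finsupp.linearCombination A e k

theorem rest_countable {T0 : Subring A} {X0 : Set F} (hT : (T0 : Set A).Countable)
    (hX : X0.Countable) : (rest T0 X0 L).Countable := by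
  classical
  have : Countable T0 := hT.to_subtype
  have : Countable X0 := hX.to_subtype
  let Φ : rest T0 X0 L → (X0 →₀ T0) := fun p =>
    Finsupp.onFinset (Finset.subtype (· ∈ X0) (p : F →₀ A).support)
      (fun x => ⟨(p : F →₀ A) x, p.2.2.coeff x⟩) (by
        intro x hx
        rw [Finset.mem_subtype, Finsupp.mem_support_iff]
        intro h
        exact hx (Subtype.ext h))
  have hΦ : Function.Injective Φ := by
    intro p p' h
    apply Subtype.ext
    ext x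
    by_cases hx : x ∈ X0
    · have := congrArg (fun f : X0 →₀ T0 => ((f ⟨x, hx⟩ : T0) : A)) h
      simpa [Φ] using this
    · have h1 : (p : F →₀ A) x = 0 := by
        by_contra h2
        exact hx (p.2.2 x (Finsupp.mem_support_iff.mpr h2)).1
      have h1' : (p' : F →₀ A) x = 0 := by
        by_contra h2
        exact hx (p'.2.2 x (Finsupp.mem_support_iff.mpr h2)).1
      rw [h1, h1']
  exact Set.countable_coe_iff.mp hΦ.countable

theorem rest_cont (c : Set (Set Ω)) (hne : c.Nonempty) (hdir : DirectedOn (· ⊆ ·) c)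
    (k : F →₀ A) (hk : k ∈ rest (σ.AM (⋃₀ c)) (σ.XM (⋃₀ c)) L) :
    ∃ S ∈ c, k ∈ rest (σ.AM S) (σ.XM S) L := by
  classical
  have key : ∀ s : Finset F, s ⊆ k.support → ∃ S ∈ c, ∀ x ∈ s, x ∈ σ.XM S ∧ k x ∈ σ.AM S := by
    intro s
    induction s using Finset.induction_on with
    | empty =>
      intro _
      obtain ⟨S, hS⟩ := hne
      exact ⟨S, hS, by simp⟩
    | insert a s ha ih =>
      intro hs
      obtain ⟨S1, hS1, h1⟩ := ih fun x hx => hs (Finset.mem_insert_of_mem hx)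
      obtain ⟨h2, h3⟩ := hk.2 a (hs (Finset.mem_insert_self _ _))
      obtain ⟨S2, hS2, h4⟩ := σ.contX c hne hdir a h2
      obtain ⟨S3, hS3, h5⟩ := σ.contA c hne hdir _ h3
      obtain ⟨S4, hS4, h6, h7⟩ := hdir S1 hS1 S2 hS2
      obtain ⟨S5, hS5, h8, h9⟩ := hdir S4 hS4 S3 hS3
      refine ⟨S5, hS5, ?_⟩
      intro x hx
      rcases Finset.mem_insert.mp hx with rfl | hx
      · exact ⟨σ.monoX (h7.trans h8) h4, σ.monoA h9 h5⟩
      · exact ⟨σ.monoX (h6.trans h8) (h1 x hx).1, σ.monoA (h6.trans h8) (h1 x hx).2⟩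
  obtain ⟨S, hS, h⟩ := key k.support subset_rfl
  exact ⟨S, hS, hk.1, h⟩

theorem lift_of_PE (q : I →ₗ[A] Q) (hq : Function.Surjective q) {S : Set Ω}
    (hP : PE σ Q S) (h : (F →₀ A) → Q) (hh : LinOn (σ.AM S) (σ.XM S) L h) :
    ∃ g : (F →₀ A) →ₗ[A] I, ∀ k ∈ rest (σ.AM S) (σ.XM S) L, q (g k) = h k := by
  obtain ⟨e, he⟩ := hP h hh
  refine ⟨Finsupp.linearCombination A (fun x => Function.surjInv hq (e x)), ?_⟩
  intro k hk
  rw [he k hk, Finsupp.linearCombination_apply, Finsupp.linearCombination_apply, Finsupp.sum,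
    Finsupp.sum, map_sum]
  refine Finset.sum_congr rfl fun x _ => ?_
  rw [map_smul, Function.surjInv_eq hq]

theorem chain_lift (ι : C →ₗ[A] I) (hι : Function.Injective ι) (q : I →ₗ[A] Q)
    (hq : Function.Surjective q) (hqι : ∀ c, q (ι c) = 0)
    (hex : ∀ y, q y = 0 → ∃ c, ι c = y) (S : Set Ω)
    (hinf : ℵ₀ ≤ #S) (ih : ∀ S' : Set Ω, #S' < #S → PE σ C S' ∧ PE σ Q S')
    (h : (F →₀ A) → Q) (hh : LinOn (σ.AM S) (σ.XM S) L h) :
    ∃ g : (F →₀ A) → I, LinOn (σ.AM S) (σ.XM S) L g ∧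
      ∀ k ∈ rest (σ.AM S) (σ.XM S) L, q (g k) = h k := by
  classical
  obtain ⟨e⟩ : Nonempty ((#S).ord.ToType ≃ S) := Cardinal.eq.mp (mk_ord_toType _)
  let W := (#S).ord.ToType
  let en : W → Ω := fun w => (e w : Ω)
  have henS : ∀ J : Set W, en '' J ⊆ S := by
    rintro J _ ⟨w, _, rfl⟩
    exact (e w).2
  have hIio : ∀ w : W, #(en '' Set.Iio w) < #S := fun w =>
    lt_of_le_of_lt mk_image_le (mk_Iio_toType_ord_lt w)
  have hIic : ∀ w : W, #(en '' Set.Iic w) < #S := by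
    intro w
    have h1 : en '' Set.Iic w = insert (en w) (en '' Set.Iio w) := by
      rw [← Set.image_insert_eq, Set.Iio_insert]
    rw [h1]
    exact lt_of_le_of_lt mk_insert_le
      (add_lt_of_lt hinf (hIio w) (lt_of_lt_of_le one_lt_aleph0 hinf))
  have hhS : ∀ J : Set W, LinOn (σ.AM (en '' J)) (σ.XM (en '' J)) L h := fun J =>
    hh.mono (σ.monoA (henS J)) (σ.monoX (henS J))
  let α := {p : Set W × ((F →₀ A) → I) // IsLowerSet p.1 ∧
    LinOn (σ.AM (en '' p.1)) (σ.XM (en '' p.1)) L p.2 ∧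
    ∀ k ∈ rest (σ.AM (en '' p.1)) (σ.XM (en '' p.1)) L, q (p.2 k) = h k}
  let r : α → α → Prop := fun a b => a.1.1 ⊆ b.1.1 ∧
    ∀ k ∈ rest (σ.AM (en '' a.1.1)) (σ.XM (en '' a.1.1)) L, a.1.2 k = b.1.2 k
  have hrest : ∀ {J J' : Set W}, J ⊆ J' → rest (σ.AM (en '' J)) (σ.XM (en '' J)) L ⊆
      rest (σ.AM (en '' J')) (σ.XM (en '' J')) L := fun hJ =>
    rest_mono (σ.monoA (Set.image_mono hJ)) (σ.monoX (Set.image_mono hJ))
  have htrans : ∀ {a b c : α}, r a b → r b c → r a c := by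
    intro a b c hab hbc
    refine ⟨hab.1.trans hbc.1, fun k hk => ?_⟩
    rw [hab.2 k hk, hbc.2 k (hrest hab.1 hk)]
  -- the base point
  have hbase : Nonempty α := by
    have h0 : #(en '' (∅ : Set W)) < #S := by
      rw [Set.image_empty, mk_eq_zero]
      exact lt_of_lt_of_le aleph0_pos hinf
    obtain ⟨g, hg⟩ := lift_of_PE σ q hq (ih _ h0).2 h (hhS ∅)
    exact ⟨⟨(∅, g), isLowerSet_empty, linOn_linear g, hg⟩⟩
  obtain ⟨a0⟩ := hbase
  have hchain : ∀ c : Set α, IsChain r c → ∃ ub, ∀ a ∈ c, r a ub := by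
    intro c hc
    by_cases hne : c.Nonempty
    swap
    · exact ⟨a0, fun a ha => (hne ⟨a, ha⟩).elim⟩
    let J : Set W := ⋃ a ∈ c, a.1.1
    let 𝒞 : Set (Set Ω) := (fun a : α => en '' a.1.1) '' c
    have hJ𝒞 : en '' J = ⋃₀ 𝒞 := by
      simp only [J, 𝒞, Set.image_iUnion, Set.sUnion_image]
    have h𝒞ne : 𝒞.Nonempty := hne.image _
    have htot : ∀ a ∈ c, ∀ b ∈ c, r a b ∨ r b a := by
      intro a ha b hb
      by_cases hab : a = b
      · subst hab
        exact Or.inl ⟨subset_rfl, fun _ _ => rfl⟩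
      · exact hc ha hb hab
    have hdir : DirectedOn (· ⊆ ·) 𝒞 := by
      rintro _ ⟨a, ha, rfl⟩ _ ⟨b, hb, rfl⟩
      rcases htot a ha b hb with h1 | h1
      · exact ⟨_, ⟨b, hb, rfl⟩, Set.image_mono h1.1, subset_rfl⟩
      · exact ⟨_, ⟨a, ha, rfl⟩, subset_rfl, Set.image_mono h1.1⟩
    have hcov : ∀ k ∈ rest (σ.AM (en '' J)) (σ.XM (en '' J)) L,
        ∃ a, a ∈ c ∧ k ∈ rest (σ.AM (en '' a.1.1)) (σ.XM (en '' a.1.1)) L := by
      intro k hk
      rw [hJ𝒞] at hk
      obtain ⟨_, ⟨a, ha, rfl⟩, h1⟩ := rest_cont σ 𝒞 h𝒞ne hdir k hk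
      exact ⟨a, ha, h1⟩
    let g : (F →₀ A) → I := fun k =>
      if hk : ∃ a, a ∈ c ∧ k ∈ rest (σ.AM (en '' a.1.1)) (σ.XM (en '' a.1.1)) L then
        hk.choose.1.2 k else 0
    have hg : ∀ a ∈ c, ∀ k ∈ rest (σ.AM (en '' a.1.1)) (σ.XM (en '' a.1.1)) L,
        g k = a.1.2 k := by
      intro a ha k hk
      have hk' : ∃ a, a ∈ c ∧ k ∈ rest (σ.AM (en '' a.1.1)) (σ.XM (en '' a.1.1)) L :=
        ⟨a, ha, hk⟩
      simp only [g, dif_pos hk']
      rcases htot _ hk'.choose_spec.1 a ha with h1 | h1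
      · exact h1.2 k hk'.choose_spec.2
      · exact (h1.2 k hk).symm
    have hcov2 : ∀ k ∈ rest (σ.AM (en '' J)) (σ.XM (en '' J)) L,
        ∀ l ∈ rest (σ.AM (en '' J)) (σ.XM (en '' J)) L,
        ∃ a, a ∈ c ∧ k ∈ rest (σ.AM (en '' a.1.1)) (σ.XM (en '' a.1.1)) L ∧
          l ∈ rest (σ.AM (en '' a.1.1)) (σ.XM (en '' a.1.1)) L := by
      intro k hk l hl
      obtain ⟨a, ha, h1⟩ := hcov k hk
      obtain ⟨b, hb, h2⟩ := hcov l hl
      rcases htot a ha b hb with h3 | h3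
      · exact ⟨b, hb, hrest h3.1 h1, h2⟩
      · exact ⟨a, ha, h1, hrest h3.1 h2⟩
    have hcovA : ∀ t ∈ σ.AM (en '' J), ∀ k ∈ rest (σ.AM (en '' J)) (σ.XM (en '' J)) L,
        ∃ a, a ∈ c ∧ t ∈ σ.AM (en '' a.1.1) ∧
          k ∈ rest (σ.AM (en '' a.1.1)) (σ.XM (en '' a.1.1)) L := by
      intro t ht k hk
      obtain ⟨a, ha, h1⟩ := hcov k hk
      rw [hJ𝒞] at ht
      obtain ⟨_, ⟨b, hb, rfl⟩, h2⟩ := σ.contA 𝒞 h𝒞ne hdir t ht
      rcases htot a ha b hb with h3 | h3
      · exact ⟨b, hb, h2, hrest h3.1 h1⟩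
      · exact ⟨a, ha, σ.monoA (Set.image_mono h3.1) h2, h1⟩
    refine ⟨⟨(J, g), ?_, ⟨?_, ?_⟩, ?_⟩, ?_⟩
    · intro x y hyx hx
      obtain ⟨_, ⟨a, rfl⟩, _, ⟨ha, rfl⟩, hx'⟩ := hx
      exact Set.mem_iUnion₂.mpr ⟨a, ha, a.2.1 hyx hx'⟩
    · intro k hk l hl
      obtain ⟨a, ha, h1, h2⟩ := hcov2 k hk l hl
      change g (k + l) = g k + g l
      rw [hg a ha k h1, hg a ha l h2, hg a ha _ (rest_add h1 h2)]
      exact a.2.2.1.1 k h1 l h2
    · intro t ht k hk
      obtain ⟨a, ha, h1, h2⟩ := hcovA t ht k hk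
      change g (t • k) = t • g k
      rw [hg a ha k h2, hg a ha _ (rest_smul h1 h2)]
      exact a.2.2.1.2 t h1 k h2
    · intro k hk
      obtain ⟨a, ha, h1⟩ := hcov k hk
      change q (g k) = h k
      rw [hg a ha k h1]
      exact a.2.2.2 k h1
    · intro a ha
      refine ⟨fun x hx => Set.mem_iUnion₂.mpr ⟨a, ha, hx⟩, fun k hk => ?_⟩
      exact (hg a ha k hk).symm
  obtain ⟨m, hm⟩ := exists_maximal_of_chains_bounded hchain htrans
  have huniv : m.1.1 = Set.univ := by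
    by_contra hne
    have hne' : (m.1.1ᶜ).Nonempty := Set.nonempty_compl.mpr hne
    let w : W := WellFounded.min (wellFounded_lt (α := W)) (m.1.1ᶜ) hne'
    have hw : w ∉ m.1.1 := WellFounded.min_mem (wellFounded_lt (α := W)) _ hne'
    have hJ : m.1.1 = Set.Iio w := by
      ext x
      constructor
      · intro hx
        by_contra hxw
        exact hw (m.2.1 (not_lt.mp hxw) hx)
      · intro hx
        by_contra hx'
        exact WellFounded.not_lt_min (wellFounded_lt (α := W)) _ hx' hx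
    have hlow : IsLowerSet (Set.Iic w) := isLowerSet_Iic w
    have hsub : m.1.1 ⊆ Set.Iic w := by rw [hJ]; exact Set.Iio_subset_Iic_self
    obtain ⟨g, hg⟩ := lift_of_PE σ q hq (ih _ (hIic w)).2 h (hhS _)
    -- the difference takes values in `C`
    have hdiff : ∀ k ∈ rest (σ.AM (en '' m.1.1)) (σ.XM (en '' m.1.1)) L,
        ∃ c, ι c = g k - m.1.2 k := by
      intro k hk
      apply hex
      rw [map_sub, hg k (hrest hsub hk), m.2.2.2 k hk, sub_self]
    let ψ : (F →₀ A) → C := fun k =>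
      if hk : ∃ c, ι c = g k - m.1.2 k then hk.choose else 0
    have hψ : ∀ k ∈ rest (σ.AM (en '' m.1.1)) (σ.XM (en '' m.1.1)) L,
        ι (ψ k) = g k - m.1.2 k := by
      intro k hk
      have := hdiff k hk
      simp only [ψ, dif_pos this]
      exact this.choose_spec
    have hψlin : LinOn (σ.AM (en '' m.1.1)) (σ.XM (en '' m.1.1)) L ψ :=
      LinOn.of_injective ι hι hψ ((linOn_linear g).sub m.2.2.1)
    have hlt : #(en '' m.1.1) < #S := by
      rw [hJ]; exact hIio w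
    obtain ⟨e', he'⟩ := (ih _ hlt).1 ψ hψlin
    let g' : (F →₀ A) →ₗ[A] I := g - ι ∘ₗ Finsupp.linearCombination A e'
    have hg' : ∀ k ∈ rest (σ.AM (en '' Set.Iic w)) (σ.XM (en '' Set.Iic w)) L,
        q (g' k) = h k := by
      intro k hk
      simp only [g', LinearMap.sub_apply, LinearMap.coe_comp, Function.comp_apply, map_sub,
        hqι, sub_zero]
      exact hg k hk
    let b : α := ⟨(Set.Iic w, g'), hlow, linOn_linear g', hg'⟩
    have hmb : r m b := by
      refine ⟨hsub, fun k hk => ?_⟩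
      change m.1.2 k = g' k
      simp only [g', LinearMap.sub_apply, LinearMap.coe_comp, Function.comp_apply]
      rw [← he' k hk, hψ k hk]
      abel
    exact hw ((hm b hmb).1 (Set.mem_Iic.mpr le_rfl))
  refine ⟨m.1.2, ?_, ?_⟩
  · have := m.2.2.1
    rw [huniv, Set.image_univ] at this
    have hr : Set.range en = S := by
      ext x
      constructor
      · rintro ⟨w, rfl⟩
        exact (e w).2
      · intro hx
        exact ⟨e.symm ⟨x, hx⟩, by simp [en]⟩
    rwa [hr] at this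
  · have := m.2.2.2
    rw [huniv, Set.image_univ] at this
    have hr : Set.range en = S := by
      ext x
      constructor
      · rintro ⟨w, rfl⟩
        exact (e w).2
      · intro hx
        exact ⟨e.symm ⟨x, hx⟩, by simp [en]⟩
    rwa [hr] at this

/-- The induction: the extension properties hold at every set. -/
theorem PE_all (ι : C →ₗ[A] I) (hι : Function.Injective ι) (q : I →ₗ[A] Q)
    (hq : Function.Surjective q) (hqι : ∀ c, q (ι c) = 0)
    (hex : ∀ y, q y = 0 → ∃ c, ι c = y)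
    (hI : ∀ S, PE σ I S) (hshift : ∀ S, PE σ Q S → PE σ C S) :
    ∀ S, PE σ C S ∧ PE σ Q S := by
  have key : ∀ κ : Cardinal.{u}, ∀ S : Set Ω, #S = κ → PE σ C S ∧ PE σ Q S := by
    intro κ
    induction κ using WellFoundedLT.induction with
    | ind κ ih =>
      intro S hS
      have ih' : ∀ S' : Set Ω, #S' < #S → PE σ C S' ∧ PE σ Q S' := fun S' hS' =>
        ih _ (hS ▸ hS') S' rfl
      have hQ : PE σ Q S := by
        intro h hh
        obtain ⟨g, hg1, hg2⟩ : ∃ g : (F →₀ A) → I, LinOn (σ.AM S) (σ.XM S) L g ∧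
            ∀ k ∈ rest (σ.AM S) (σ.XM S) L, q (g k) = h k := by
          by_cases hc : S.Countable
          · exact lift_of_countable (σ.theta S) (rest_countable (σ.ctA S hc) (σ.ctX S hc))
              q hq h hh
          · refine chain_lift σ ι hι q hq hqι hex S ?_ ih' h hh
            rw [← Cardinal.le_aleph0_iff_set_countable, not_le] at hc
            exact hc.le
        obtain ⟨e, he⟩ := hI S g hg1
        refine ⟨fun x => q (e x), ?_⟩
        intro k hk
        rw [← hg2 k hk, he k hk, Finsupp.linearCombination_apply,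
          Finsupp.linearCombination_apply, Finsupp.sum, Finsupp.sum, map_sum]
        exact Finset.sum_congr rfl fun x _ => map_smul _ _ _
      exact ⟨hshift S hQ, hQ⟩
  exact fun S => key _ S rfl

end

end Pool.Agent.Q26.FP
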