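import Mathlib

/-!
Finitary closure operators with countable rules.
-/

namespace Pool.Agent.Q26.FP

universe u

variable {Ω : Type u}

/-- `M` is closed under the rules `Φ`. -/
def ClosedU (Φ : Set Ω → Set Ω) (M : Set Ω) : Prop := ∀ s : Set Ω, s.Finite → s ⊆ M → Φ s ⊆ M

/-- The closure. -/
def clo (Φ : Set Ω → Set Ω) (S : Set Ω) : Set Ω := ⋂₀ {M | S ⊆ M ∧ ClosedU Φ M}

theorem subset_clo (Φ : Set Ω → Set Ω) (S : Set Ω) : S ⊆ clo Φ S :=
  Set.subset_sInter fun _ hM => hM.1

theorem clo_closed (Φ : Set Ω → Set Ω) (S : Set Ω) : ClosedU Φ (clo Φ S) := by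
  intro s hs hsS
  refine Set.subset_sInter fun M hM => ?_
  exact hM.2 s hs (hsS.trans (Set.sInter_subset_of_mem hM))

theorem clo_min {Φ : Set Ω → Set Ω} {S M : Set Ω} (h : S ⊆ M) (hM : ClosedU Φ M) :
    clo Φ S ⊆ M := Set.sInter_subset_of_mem ⟨h, hM⟩

theorem clo_mono (Φ : Set Ω → Set Ω) {S S' : Set Ω} (h : S ⊆ S') : clo Φ S ⊆ clo Φ S' :=
  clo_min (h.trans (subset_clo Φ S')) (clo_closed Φ S')

theorem clo_cont (Φ : Set Ω → Set Ω) (c : Set (Set Ω)) (hne : c.Nonempty)
    (hdir : DirectedOn (· ⊆ ·) c) (x : Ω) (hx : x ∈ clo Φ (⋃₀ c)) : ∃ S ∈ c, x ∈ clo Φ S := by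
  have hcl : clo Φ (⋃₀ c) ⊆ {x | ∃ S ∈ c, x ∈ clo Φ S} := by
    apply clo_min
    · rintro y ⟨S, hS, hy⟩
      exact ⟨S, hS, subset_clo Φ S hy⟩
    · intro s hs hsub
      have key : ∀ t : Set Ω, t.Finite → t ⊆ {x | ∃ S ∈ c, x ∈ clo Φ S} →
          ∃ S ∈ c, t ⊆ clo Φ S := by
        intro t ht
        induction t, ht using Set.Finite.induction_on with
        | empty =>
          intro _
          obtain ⟨S, hS⟩ := hne
          exact ⟨S, hS, Set.empty_subset _⟩
        | @insert a t _ _ ih =>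
          intro h
          obtain ⟨S1, hS1, h1⟩ := ih ((Set.subset_insert _ _).trans h)
          obtain ⟨S2, hS2, h2⟩ := h (Set.mem_insert _ _)
          obtain ⟨S3, hS3, h3, h4⟩ := hdir S1 hS1 S2 hS2
          refine ⟨S3, hS3, ?_⟩
          intro y hy
          rcases hy with rfl | hy
          · exact clo_mono Φ h4 h2
          · exact clo_mono Φ h3 (h1 hy)
      obtain ⟨S, hS, h⟩ := key s hs hsub
      intro y hy
      exact ⟨S, hS, clo_closed Φ S s hs h hy⟩
  exact hcl hx

theorem clo_countable (Φ : Set Ω → Set Ω) (hΦ : ∀ s : Set Ω, s.Finite → (Φ s).Countable)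
    (S : Set Ω) (hS : S.Countable) : (clo Φ S).Countable := by
  let st : Set Ω → Set Ω := fun M => M ∪ ⋃ s ∈ {s : Set Ω | s.Finite ∧ s ⊆ M}, Φ s
  let M : ℕ → Set Ω := fun n => st^[n] S
  have hMs : ∀ n, M (n + 1) = st (M n) := fun n => Function.iterate_succ_apply' st n S
  have hMc : ∀ n, (M n).Countable := by
    intro n
    induction n with
    | zero => exact hS
    | succ n ih =>
      rw [hMs]
      refine ih.union (Set.Countable.biUnion (Set.countable_ofPred_finite_subset ih) ?_)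
      intro s hs
      exact hΦ s hs.1
  have hmono : Monotone M := monotone_nat_of_le_succ fun n => by
    rw [hMs]
    exact Set.subset_union_left
  have hsub : clo Φ S ⊆ ⋃ n, M n := by
    apply clo_min
    · exact Set.subset_iUnion M 0
    · intro s hs hsM
      obtain ⟨n, hn⟩ : ∃ n, s ⊆ M n := by
        induction s, hs using Set.Finite.induction_on with
        | empty => exact ⟨0, Set.empty_subset _⟩
        | @insert a t _ _ ih =>
          obtain ⟨n1, h1⟩ := ih ((Set.subset_insert _ _).trans hsM)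
          obtain ⟨n2, h2⟩ := Set.mem_iUnion.mp (hsM (Set.mem_insert _ _))
          refine ⟨max n1 n2, ?_⟩
          intro y hy
          rcases hy with rfl | hy
          · exact hmono (le_max_right _ _) h2
          · exact hmono (le_max_left _ _) (h1 hy)
      intro y hy
      refine Set.mem_iUnion.mpr ⟨n + 1, ?_⟩
      rw [hMs]
      refine Or.inr ?_
      exact Set.mem_biUnion (x := s) ⟨hs, hn⟩ hy
  exact (Set.countable_iUnion hMc).mono hsub

/-- A property of subsets which holds for the sets closed under suitable countable rules. -/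
def Club (P : Set Ω → Prop) : Prop :=
  ∃ Φ : Set Ω → Set Ω, (∀ s : Set Ω, s.Finite → (Φ s).Countable) ∧ ∀ M, ClosedU Φ M → P M

theorem Club.and {P P' : Set Ω → Prop} (h : Club P) (h' : Club P') :
    Club (fun M => P M ∧ P' M) := by
  obtain ⟨Φ, h1, h2⟩ := h
  obtain ⟨Φ', h1', h2'⟩ := h'
  refine ⟨fun s => Φ s ∪ Φ' s, fun s hs => (h1 s hs).union (h1' s hs), fun M hM => ⟨?_, ?_⟩⟩
  · exact h2 M fun s hs hsM => Set.subset_union_left.trans (hM s hs hsM)
  · exact h2' M fun s hs hsM => Set.subset_union_right.trans (hM s hs hsM)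

theorem Club.mono {P P' : Set Ω → Prop} (h : Club P) (h' : ∀ M, P M → P' M) : Club P' := by
  obtain ⟨Φ, h1, h2⟩ := h
  exact ⟨Φ, h1, fun M hM => h' M (h2 M hM)⟩

theorem club_rule {X : Type*} (prem : X → Set Ω) (concl : X → Set Ω)
    (hfin : ∀ x, (prem x).Finite) (hconcl : ∀ x, (concl x).Countable)
    (hcount : ∀ s : Set Ω, s.Finite → {x | prem x ⊆ s}.Countable) :
    Club (fun M : Set Ω => ∀ x, prem x ⊆ M → concl x ⊆ M) := by
  refine ⟨fun s => ⋃ x ∈ {x | prem x ⊆ s}, concl x, ?_, ?_⟩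
  · intro s hs
    exact Set.Countable.biUnion (hcount s hs) fun x _ => hconcl x
  · intro M hM x hx
    refine Set.Subset.trans ?_ (hM (prem x) (hfin x) hx)
    intro y hy
    exact Set.mem_biUnion (x := x) (show x ∈ {x' | prem x' ⊆ prem x} from fun _ h => h) hy

/-- Rules without premises. -/
theorem club_const (c : Set Ω) (hc : c.Countable) : Club (fun M : Set Ω => c ⊆ M) :=
  ⟨fun _ => c, fun _ _ => hc, fun _ hM => hM ∅ Set.finite_empty (Set.empty_subset _)⟩

/-- Traces of finitely supported functions. -/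
def trace {X T : Type*} [Zero T] (u : X → Ω) (v : T → Ω) (p : X →₀ T) : Set Ω :=
  {o | ∃ x ∈ p.support, o = u x ∨ o = v (p x)}

theorem trace_finite {X T : Type*} [Zero T] (u : X → Ω) (v : T → Ω) (p : X →₀ T) :
    (trace u v p).Finite := by
  have h : trace u v p = u '' p.support ∪ (fun x => v (p x)) '' p.support := by
    ext o
    constructor
    · rintro ⟨x, hx, rfl | rfl⟩
      · exact Or.inl ⟨x, hx, rfl⟩
      · exact Or.inr ⟨x, hx, rfl⟩
    · rintro (⟨x, hx, rfl⟩ | ⟨x, hx, rfl⟩)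
      · exact ⟨x, hx, Or.inl rfl⟩
      · exact ⟨x, hx, Or.inr rfl⟩
  rw [h]
  exact (p.support.finite_toSet.image _).union (p.support.finite_toSet.image _)

theorem trace_count {X T : Type*} [Zero T] {u : X → Ω} {v : T → Ω} (hu : Function.Injective u)
    (hv : Function.Injective v) (s : Set Ω) (hs : s.Finite) :
    {p : X →₀ T | trace u v p ⊆ s}.Finite := by
  classical
  have h1 : (u ⁻¹' s).Finite := hs.preimage hu.injOn
  have h2 : (v ⁻¹' s).Finite := hs.preimage hv.injOn
  refine ((h1.toFinset).finsupp (fun _ => insert 0 h2.toFinset)).finite_toSet.subset ?_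
  intro p hp
  have hp' : trace u v p ⊆ s := hp
  rw [Finset.mem_coe, Finset.mem_finsupp_iff]
  constructor
  · intro x hx
    rw [Set.Finite.mem_toFinset]
    exact hp' ⟨x, hx, Or.inl rfl⟩
  · intro x _
    rw [Finset.mem_insert, Set.Finite.mem_toFinset]
    by_cases hx : x ∈ p.support
    · exact Or.inr (hp' ⟨x, hx, Or.inr rfl⟩)
    · exact Or.inl (Finsupp.notMem_support_iff.mp hx)

end Pool.Agent.Q26.FP
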