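import Pool.Agent.Q26.FP.C

/-!
A free construction of a module over `A` whose underlying `R`-module is cotorsion.
-/

namespace Pool.Agent.Q26.FP

universe u

/-- Generators: the elements of `L`, and for every flat module with a presentation by `μ` and every
map from the relations to formal linear combinations of generators a family of new generators. -/
inductive Gen (R A L μ : Type u) [Ring R] : Type u
  | base (l : L) : Gen R A L μ
  | cell (K : {K : Submodule R (μ →₀ R) // VPure K}) (n : K.1 → ℕ)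
      (a : (k : K.1) → Fin (n k) → A) (g : (k : K.1) → Fin (n k) → Gen R A L μ) (x : μ) :
      Gen R A L μ

section

variable {R A L μ : Type u} [Ring R] [Ring A] [AddCommGroup L] [Module A L]

/-- The formal linear combination. -/
noncomputable def hbar {R A L μ : Type u} [Ring R] [Ring A]
    {K : {K : Submodule R (μ →₀ R) // VPure K}} {n : K.1 → ℕ}
    (a : (k : K.1) → Fin (n k) → A) (g : (k : K.1) → Fin (n k) → Gen R A L μ) (k : K.1) :
    Gen R A L μ →₀ A := ∑ i, Finsupp.single (g k i) (a k i)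

/-- Derivations of the relations. -/
inductive Der (f : R →+* A) : (Gen R A L μ →₀ A) → Type u
  | zero : Der f 0
  | add {v w : Gen R A L μ →₀ A} (δ : Der f v) (ε : Der f w) : Der f (v + w)
  | smul (a : A) {v : Gen R A L μ →₀ A} (δ : Der f v) : Der f (a • v)
  | badd (l l' : L) : Der f (Finsupp.single (Gen.base (l + l')) 1 -
      Finsupp.single (Gen.base l) 1 - Finsupp.single (Gen.base l') 1)
  | bsmul (a : A) (l : L) : Der f (Finsupp.single (Gen.base (a • l)) 1 -
      a • Finsupp.single (Gen.base l) 1)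
  | cell (K : {K : Submodule R (μ →₀ R) // VPure K}) (n : K.1 → ℕ)
      (a : (k : K.1) → Fin (n k) → A) (g : (k : K.1) → Fin (n k) → Gen R A L μ)
      (hadd : ∀ k k' : K.1, Der f (hbar a g (k + k') - hbar a g k - hbar a g k'))
      (hsmul : ∀ (r : R) (k : K.1), Der f (hbar a g (r • k) - f r • hbar a g k)) (k : K.1) :
      Der f (∑ x ∈ (k : μ →₀ R).support, Finsupp.single (Gen.cell K n a g x)
        (f ((k : μ →₀ R) x)) - hbar a g k)

/-- The relations. -/
def relN (L μ : Type u) [AddCommGroup L] [Module A L] (f : R →+* A) :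
    Submodule A (Gen R A L μ →₀ A) where
  carrier := {v | Nonempty (Der f v)}
  zero_mem' := ⟨Der.zero⟩
  add_mem' := by
    rintro _ _ ⟨δ⟩ ⟨ε⟩
    exact ⟨Der.add δ ε⟩
  smul_mem' := by
    rintro a _ ⟨δ⟩
    exact ⟨Der.smul a δ⟩

/-- The module. -/
abbrev DMod (L μ : Type u) [AddCommGroup L] [Module A L] (f : R →+* A) : Type u :=
  (Gen R A L μ →₀ A) ⧸ relN L μ f

/-- The map from `L`. -/
noncomputable def jmap (L μ : Type u) [AddCommGroup L] [Module A L] (f : R →+* A) :
    L →ₗ[A] DMod L μ f where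
  toFun := fun l => Submodule.Quotient.mk (Finsupp.single (Gen.base l) 1)
  map_add' := by
    intro l l'
    rw [← Submodule.Quotient.mk_add, Submodule.Quotient.eq]
    have : (Finsupp.single (Gen.base (l + l')) 1 -
        (Finsupp.single (Gen.base l) 1 + Finsupp.single (Gen.base l') 1) : Gen R A L μ →₀ A) =
        Finsupp.single (Gen.base (l + l')) 1 - Finsupp.single (Gen.base l) 1 -
          Finsupp.single (Gen.base l') 1 := by abel
    rw [this]
    exact ⟨Der.badd l l'⟩
  map_smul' := by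
    intro a l
    rw [RingHom.id_apply, ← Submodule.Quotient.mk_smul, Submodule.Quotient.eq]
    exact ⟨Der.bsmul a l⟩

theorem exists_fin_sum {X T : Type*} [AddCommMonoid T] (v : X →₀ T) :
    ∃ (n : ℕ) (a : Fin n → T) (g : Fin n → X), ∑ i, Finsupp.single (g i) (a i) = v := by
  classical
  let e := Fintype.equivFin v.support
  refine ⟨_, fun i => v (e.symm i), fun i => (e.symm i : X), ?_⟩
  rw [e.symm.sum_comp (fun x : v.support => Finsupp.single (x : X) (v x)),
    Finset.sum_coe_sort v.support (fun x => Finsupp.single x (v x))]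
  exact Finsupp.sum_single v

/-- The underlying `R`-module has the extension property. -/
theorem dmod_ext (f : R →+* A) (K : Submodule R (μ →₀ R)) (hK : VPure K) :
    @ExtP R μ _ K (DMod L μ f) _ (Module.compHom _ f) := by
  let _inst : Module R (DMod L μ f) := Module.compHom _ f
  have hsm : ∀ (r : R) (d : DMod L μ f), r • d = f r • d := fun _ _ => rfl
  intro h
  choose v hv using fun k : K => Submodule.Quotient.mk_surjective (relN L μ f) (h k)
  choose n a g hang using fun k : K => exists_fin_sum (v k)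
  let K' : {K : Submodule R (μ →₀ R) // VPure K} := ⟨K, hK⟩
  have hb : ∀ k : K'.1, hbar (K := K') a g k = v k := hang
  have hadd : ∀ k k' : K'.1, Nonempty (Der f (hbar a g (k + k') - hbar a g k - hbar a g k')) := by
    intro k k'
    rw [hb, hb, hb]
    change _ ∈ relN L μ f
    rw [← Submodule.Quotient.mk_eq_zero, Submodule.Quotient.mk_sub, Submodule.Quotient.mk_sub,
      hv, hv, hv]
    erw [map_add]
    abel
  have hsmul : ∀ (r : R) (k : K'.1), Nonempty (Der f (hbar a g (r • k) - f r • hbar a g k)) := by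
    intro r k
    rw [hb, hb]
    change _ ∈ relN L μ f
    rw [← Submodule.Quotient.mk_eq_zero, Submodule.Quotient.mk_sub, Submodule.Quotient.mk_smul,
      hv, hv]
    erw [map_smul]
    rw [hsm, sub_self]
  refine ⟨Finsupp.linearCombination R
    (fun x => Submodule.Quotient.mk (Finsupp.single (Gen.cell K' n a g x) 1)), ?_⟩
  intro k
  have h1 : (∑ x ∈ (k : μ →₀ R).support, Finsupp.single (Gen.cell K' n a g x)
        (f ((k : μ →₀ R) x)) - hbar (K := K') a g k : Gen R A L μ →₀ A) ∈ relN L μ f :=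
    ⟨Der.cell K' n a g (fun k k' => (hadd k k').some) (fun r k => (hsmul r k).some) k⟩
  rw [← Submodule.Quotient.mk_eq_zero, Submodule.Quotient.mk_sub, sub_eq_zero, hb, hv] at h1
  rw [← h1, Finsupp.linearCombination_apply, Finsupp.sum]
  change _ = (relN L μ f).mkQ _
  rw [map_sum]
  refine Finset.sum_congr rfl fun x _ => ?_
  rw [hsm, ← Submodule.Quotient.mk_smul, Finsupp.smul_single, smul_eq_mul, mul_one]
  rfl

/-- Closure properties of a set of derivations. -/
structure DClosed (f : R →+* A) (RM : Subring R) (Xμ : Set μ) (AM : Subring A) (LM : Set L)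
    (DM : ∀ v : Gen R A L μ →₀ A, Der f v → Prop) : Prop where
  add : ∀ {v w} (δ : Der f v) (ε : Der f w), DM _ (Der.add δ ε) → DM _ δ ∧ DM _ ε
  smul : ∀ (a : A) {v} (δ : Der f v), DM _ (Der.smul a δ) → DM _ δ
  badd : ∀ l l', DM _ (Der.badd l l') → l ∈ LM ∧ l' ∈ LM
  bsmul : ∀ a l, DM _ (Der.bsmul a l) → a ∈ AM ∧ l ∈ LM
  cell0 : ∀ K n a g hadd hsmul k, DM _ (Der.cell K n a g hadd hsmul k) →
    Over RM Xμ (k : μ →₀ R)
  cell1 : ∀ K n a g hadd hsmul k, DM _ (Der.cell K n a g hadd hsmul k) →
    ∀ k' k'' : K.1, Over RM Xμ (k' : μ →₀ R) → Over RM Xμ (k'' : μ →₀ R) → DM _ (hadd k' k'')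
  cell2 : ∀ K n a g hadd hsmul k, DM _ (Der.cell K n a g hadd hsmul k) →
    ∀ (r : R) (k' : K.1), r ∈ RM → Over RM Xμ (k' : μ →₀ R) → DM _ (hsmul r k')
  cell3 : ∀ K n a g hadd hsmul k, DM _ (Der.cell K n a g hadd hsmul k) →
    ThetaClosed RM Xμ K.1

variable {C : Type u} [AddCommGroup C] [Module A C]

open Classical in
/-- The recursive definition of an extension. -/
noncomputable def Psi (f : R →+* A) (RM : Subring R) (Xμ : Set μ) (ψ : L → C) :
    Gen R A L μ → C
  | Gen.base l => ψ l
  | Gen.cell K n a g x =>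
    if h : ∃ e : μ → C, ∀ k : K.1, Over RM Xμ (k : μ →₀ R) →
        ∑ i, a k i • Psi f RM Xμ ψ (g k i) =
          ∑ x ∈ (k : μ →₀ R).support, f ((k : μ →₀ R) x) • e x then h.choose x else 0

theorem psi_kill (f : R →+* A)
    (hC : ∀ K' : Submodule R (μ →₀ R), VPure K' → @ExtP R μ _ K' C _ (Module.compHom C f))
    {RM : Subring R} {Xμ : Set μ} {AM : Subring A} {LM : Set L}
    {DM : ∀ v : Gen R A L μ →₀ A, Der f v → Prop} (hD : DClosed f RM Xμ AM LM DM)
    (ψ : L → C) (hψa : ∀ l ∈ LM, ∀ l' ∈ LM, ψ (l + l') = ψ l + ψ l')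
    (hψs : ∀ a ∈ AM, ∀ l ∈ LM, ψ (a • l) = a • ψ l) (v : Gen R A L μ →₀ A) (δ : Der f v)
    (hδ : DM v δ) : Finsupp.linearCombination A (Psi f RM Xμ ψ) v = 0 := by
  classical
  have hbase : ∀ l, Psi f RM Xμ ψ (Gen.base l : Gen R A L μ) = ψ l := by
    intro l
    simp only [Psi]
  induction δ with
  | zero => exact map_zero _
  | add δ ε ih1 ih2 =>
    obtain ⟨h1, h2⟩ := hD.add δ ε hδ
    rw [map_add, ih1 h1, ih2 h2, add_zero]
  | smul a δ ih =>
    rw [map_smul, ih (hD.smul a δ hδ), smul_zero]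
  | badd l l' =>
    obtain ⟨h1, h2⟩ := hD.badd l l' hδ
    simp only [map_sub, Finsupp.linearCombination_single, one_smul, hbase, hψa l h1 l' h2]
    abel
  | bsmul a l =>
    obtain ⟨h1, h2⟩ := hD.bsmul a l hδ
    simp only [map_sub, map_smul, Finsupp.linearCombination_single, one_smul, hbase,
      hψs a h1 l h2, sub_self]
  | cell K n a g hadd hsmul k ih1 ih2 =>
    let _inst : Module R C := Module.compHom C f
    have hsm : ∀ (r : R) (c : C), r • c = f r • c := fun _ _ => rfl
    have hbar_eq : ∀ k : K.1, Finsupp.linearCombination A (Psi f RM Xμ ψ) (hbar a g k) =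
        ∑ i, a k i • Psi f RM Xμ ψ (g k i) := by
      intro k
      simp only [hbar, map_sum, Finsupp.linearCombination_single]
    let G : K.1 → C := fun k => ∑ i, a k i • Psi f RM Xμ ψ (g k i)
    have hG1 : ∀ k k' : K.1, Over RM Xμ (k : μ →₀ R) → Over RM Xμ (k' : μ →₀ R) →
        G (k + k') = G k + G k' := by
      intro k1 k2 h1 h2
      have h3 := ih1 k1 k2 (hD.cell1 K n a g hadd hsmul k hδ k1 k2 h1 h2)
      simp only [map_sub, hbar_eq] at h3
      change G (k1 + k2) - G k1 - G k2 = 0 at h3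
      rw [sub_sub, sub_eq_zero] at h3
      exact h3
    have hG2 : ∀ (r : R) (k' : K.1), r ∈ RM → Over RM Xμ (k' : μ →₀ R) →
        G (r • k') = f r • G k' := by
      intro r k1 h1 h2
      have h3 := ih2 r k1 (hD.cell2 K n a g hadd hsmul k hδ r k1 h1 h2)
      simp only [map_sub, map_smul, hbar_eq] at h3
      rw [sub_eq_zero] at h3
      exact h3
    let G' : (μ →₀ R) → C := fun p => if h : p ∈ K.1 then G ⟨p, h⟩ else 0
    have hG' : ∀ k : K.1, G' k = G k := fun k => by simp [G']
    have hlin : LinOn RM Xμ K.1 G' := by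
      constructor
      · intro p hp p' hp'
        have h1 := hG1 ⟨p, hp.1⟩ ⟨p', hp'.1⟩ hp.2 hp'.2
        have h2 := hG' ⟨p, hp.1⟩
        have h3 := hG' ⟨p', hp'.1⟩
        have h4 := hG' (⟨p, hp.1⟩ + ⟨p', hp'.1⟩)
        change G' (p + p') = _ at h4
        change G' p = _ at h2
        change G' p' = _ at h3
        rw [h4, h2, h3, h1]
      · intro r hr p hp
        have h1 := hG2 r ⟨p, hp.1⟩ hr hp.2
        have h2 := hG' ⟨p, hp.1⟩
        have h4 := hG' (r • ⟨p, hp.1⟩)
        change G' (r • p) = _ at h4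
        change G' p = _ at h2
        rw [h4, h2, h1, hsm]
    obtain ⟨e, he⟩ := extend_of_theta (hD.cell3 K n a g hadd hsmul k hδ) hC G' hlin
    have hex : ∃ e : μ → C, ∀ k : K.1, Over RM Xμ (k : μ →₀ R) →
        ∑ i, a k i • Psi f RM Xμ ψ (g k i) =
          ∑ x ∈ (k : μ →₀ R).support, f ((k : μ →₀ R) x) • e x := by
      refine ⟨e, fun k' hk' => ?_⟩
      have h1 := he k' ⟨k'.2, hk'⟩
      rw [hG', Finsupp.linearCombination_apply, Finsupp.sum] at h1
      exact h1
    have hcell : ∀ x, Psi f RM Xμ ψ (Gen.cell K n a g x) = hex.choose x := by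
      intro x
      conv_lhs => rw [Psi]
      rw [dif_pos hex]
    rw [map_sub, map_sum, hbar_eq, sub_eq_zero]
    rw [hex.choose_spec k (hD.cell0 K n a g hadd hsmul k hδ)]
    refine Finset.sum_congr rfl fun x _ => ?_
    rw [Finsupp.linearCombination_single, hcell]

end

end Pool.Agent.Q26.FP
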