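import Pool.Agent.Q26.FP.D

/-!
The shift: from `Ext^1(Z, Q) = 0` to `Ext^1(Z, C) = 0` for `0 → Z → F → Z → 0`, relative to a
restriction.
-/

namespace Pool.Agent.Q26.FP

universe u

section

variable {A F : Type u} [Ring A] [AddCommGroup F] [Module A F]

/-- The presentation of `F` by the free module on its elements. -/
noncomputable def piF (A F : Type u) [Ring A] [AddCommGroup F] [Module A F] :
    (F →₀ A) →ₗ[A] F := Finsupp.linearCombination A id

theorem piF_single (x : F) (a : A) : piF A F (Finsupp.single x a) = a • x := by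
  simp [piF]

theorem Over.sum {T X : Type u} [Ring T] {T0 : Subring T} {X0 : Set X} {ι : Type*}
    (s : Finset ι) (p : ι → X →₀ T)
    (hp : ∀ i ∈ s, Over T0 X0 (p i)) : Over T0 X0 (∑ i ∈ s, p i) := by
  classical
  induction s using Finset.induction_on with
  | empty => simpa using Over.zero
  | insert a s ha ih =>
    rw [Finset.sum_insert ha]
    exact (hp a (Finset.mem_insert_self _ _)).add
      (ih fun i hi => hp i (Finset.mem_insert_of_mem hi))

/-- Closure of a subset of `F`. -/
structure FClosed (AM : Subring A) (XM : Set F) (d : F →ₗ[A] F) : Prop where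
  zero : (0 : F) ∈ XM
  add : ∀ x ∈ XM, ∀ y ∈ XM, x + y ∈ XM
  smul : ∀ a ∈ AM, ∀ x ∈ XM, a • x ∈ XM
  diff : ∀ x ∈ XM, d x ∈ XM
  sec : ∀ z ∈ XM, d z = 0 → ∃ x ∈ XM, d x = z

theorem FClosed.piF_mem {AM : Subring A} {XM : Set F} {d : F →ₗ[A] F} (h : FClosed AM XM d)
    {p : F →₀ A} (hp : Over AM XM p) : piF A F p ∈ XM := by
  classical
  have key : ∀ s : Finset F, s ⊆ p.support → ∑ x ∈ s, p x • x ∈ XM := by
    intro s
    induction s using Finset.induction_on with
    | empty => intro _; simpa using h.zero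
    | insert a s ha ih =>
      intro hs
      rw [Finset.sum_insert ha]
      have h1 := hp a (hs (Finset.mem_insert_self _ _))
      exact h.add _ (h.smul _ h1.2 _ h1.1) _
        (ih fun x hx => hs (Finset.mem_insert_of_mem hx))
  exact key _ subset_rfl

variable {C I Q : Type u} [AddCommGroup C] [Module A C] [AddCommGroup I] [Module A I]
  [AddCommGroup Q] [Module A Q]

theorem shift {AM : Subring A} {XM : Set F} {d : F →ₗ[A] F} (hcl : FClosed AM XM d)
    (hdd : ∀ x, d (d x) = 0)
    (ι : C →ₗ[A] I) (hι : Function.Injective ι) (q : I →ₗ[A] Q) (hq : Function.Surjective q)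
    (hqι : ∀ c, q (ι c) = 0) (hex : ∀ y, q y = 0 → ∃ c, ι c = y)
    (hI : ∀ ψ : (F →₀ A) → I, LinOn AM XM (LinearMap.ker (d ∘ₗ piF A F)) ψ →
      ∃ e : F → I, ∀ k ∈ rest AM XM (LinearMap.ker (d ∘ₗ piF A F)),
        ψ k = Finsupp.linearCombination A e k)
    (hF : ∀ ψ : (F →₀ A) → C, LinOn AM XM (LinearMap.ker (piF A F)) ψ →
      ∃ e : F → C, ∀ k ∈ rest AM XM (LinearMap.ker (piF A F)),
        ψ k = Finsupp.linearCombination A e k)
    (hQ : ∀ ψ : (F →₀ A) → Q, LinOn AM XM (LinearMap.ker (d ∘ₗ piF A F)) ψ →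
      ∃ e : F → Q, ∀ k ∈ rest AM XM (LinearMap.ker (d ∘ₗ piF A F)),
        ψ k = Finsupp.linearCombination A e k)
    (ψ : (F →₀ A) → C) (hψ : LinOn AM XM (LinearMap.ker (d ∘ₗ piF A F)) ψ) :
      ∃ e : F → C, ∀ k ∈ rest AM XM (LinearMap.ker (d ∘ₗ piF A F)),
        ψ k = Finsupp.linearCombination A e k := by
  classical
  have hone : (1 : A) ∈ AM := AM.one_mem
  have hιψ : LinOn AM XM (LinearMap.ker (d ∘ₗ piF A F)) (fun k => ι (ψ k)) :=
    ⟨fun k hk l hl => by
      change ι (ψ (k + l)) = ι (ψ k) + ι (ψ l)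
      rw [hψ.1 k hk l hl, map_add],
    fun t ht k hk => by
      change ι (ψ (t • k)) = t • ι (ψ k)
      rw [hψ.2 t ht k hk, map_smul]⟩
  obtain ⟨v, hv⟩ := hI _ hιψ
  have hv0 : ∀ l ∈ rest AM XM (LinearMap.ker (d ∘ₗ piF A F)),
      q (Finsupp.linearCombination A v l) = 0 := by
    intro l hl
    rw [← hv l hl, hqι]
  have hsel : ∀ z : F, ∃ x : F, (z ∈ XM ∧ d z = 0) → x ∈ XM ∧ d x = z := by
    intro z
    by_cases h : z ∈ XM ∧ d z = 0
    · obtain ⟨x, h1, h2⟩ := hcl.sec z h.1 h.2
      exact ⟨x, fun _ => ⟨h1, h2⟩⟩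
    · exact ⟨0, fun h' => (h h').elim⟩
  choose sel hsel using hsel
  -- elements of the kernel
  have hmem : ∀ p : F →₀ A, Over AM XM p → d (piF A F p) = 0 →
      p ∈ rest AM XM (LinearMap.ker (d ∘ₗ piF A F)) := fun p h1 h2 => ⟨h2, h1⟩
  have hZ : ∀ l ∈ rest AM XM (LinearMap.ker (d ∘ₗ piF A F)),
      piF A F l ∈ XM ∧ d (piF A F l) = 0 := fun l hl => ⟨hcl.piF_mem hl.2, hl.1⟩
  let ψ2 : (F →₀ A) → Q := fun l => q (v (sel (piF A F l)))
  have hψ2 : LinOn AM XM (LinearMap.ker (d ∘ₗ piF A F)) ψ2 := by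
    constructor
    · intro l hl l' hl'
      have h1 := hsel _ (hZ l hl)
      have h2 := hsel _ (hZ l' hl')
      have h3 := hsel _ (hZ _ (rest_add hl hl'))
      have h4 := hv0 (Finsupp.single (sel (piF A F (l + l'))) 1 -
        Finsupp.single (sel (piF A F l)) 1 - Finsupp.single (sel (piF A F l')) 1)
        (hmem _ (((Over.single h3.1 hone).sub (Over.single h1.1 hone)).sub
          (Over.single h2.1 hone)) (by
            simp only [map_sub, piF_single, one_smul]
            rw [h3.2, h1.2, h2.2, map_add]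
            abel))
      simp only [map_sub, Finsupp.linearCombination_single, one_smul] at h4
      rw [sub_sub, sub_eq_zero] at h4
      exact h4
    · intro t ht l hl
      have h1 := hsel _ (hZ l hl)
      have h3 := hsel _ (hZ _ (rest_smul ht hl))
      change q (v (sel (piF A F (t • l)))) = t • q (v (sel (piF A F l)))
      obtain ⟨x3, hx3⟩ : ∃ x3, x3 = sel (piF A F (t • l)) := ⟨_, rfl⟩
      rw [← hx3] at h3 ⊢
      have h4 := hv0 (Finsupp.single x3 1 -
        t • Finsupp.single (sel (piF A F l)) 1)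
        (hmem _ ((Over.single h3.1 hone).sub ((Over.single h1.1 hone).smul ht)) (by
            simp only [map_sub, map_smul, piF_single, one_smul]
            rw [h3.2, h1.2, map_smul]
            abel))
      simp only [map_sub, map_smul, Finsupp.linearCombination_single, one_smul] at h4
      rw [sub_eq_zero] at h4
      exact h4
  obtain ⟨e, he⟩ := hQ ψ2 hψ2
  have he1 : ∀ z ∈ XM, d z = 0 → e z = q (v (sel z)) := by
    intro z hz hdz
    have h1 := he (Finsupp.single z 1) (hmem _ (Over.single hz hone) (by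
      rw [piF_single, one_smul, hdz]))
    simp only [ψ2, piF_single, one_smul, Finsupp.linearCombination_single] at h1
    exact h1.symm
  have he2 : ∀ x ∈ XM, e (d x) = q (v x) := by
    intro x hx
    have hdx : d x ∈ XM := hcl.diff x hx
    rw [he1 _ hdx (hdd x)]
    have h1 := hsel (d x) ⟨hdx, hdd x⟩
    have h4 := hv0 (Finsupp.single (sel (d x)) 1 - Finsupp.single x 1)
      (hmem _ ((Over.single h1.1 hone).sub (Over.single hx hone)) (by
        simp only [map_sub, piF_single, one_smul]
        rw [h1.2, sub_self]))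
    simp only [map_sub, Finsupp.linearCombination_single, one_smul] at h4
    exact sub_eq_zero.mp h4
  have hsub : ∀ l ∈ rest AM XM (LinearMap.ker (piF A F)),
      l ∈ rest AM XM (LinearMap.ker (d ∘ₗ piF A F)) := by
    intro l hl
    refine hmem l hl.2 ?_
    rw [show piF A F l = 0 from hl.1, map_zero]
  have he3 : ∀ l ∈ rest AM XM (LinearMap.ker (piF A F)),
      Finsupp.linearCombination A e l = 0 := by
    intro l hl
    rw [← he l (hsub l hl)]
    have h0 : piF A F l = 0 := hl.1
    change q (v (sel (piF A F l))) = 0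
    rw [h0]
    have h1 := hsel 0 ⟨hcl.zero, map_zero d⟩
    have h4 := hv0 (Finsupp.single (sel 0) 1) (hmem _ (Over.single h1.1 hone) (by
      rw [piF_single, one_smul, h1.2]))
    simp only [Finsupp.linearCombination_single, one_smul] at h4
    exact h4
  -- lift `e`
  let w : F → I := fun x => Function.surjInv hq (e x)
  have hw : ∀ l, q (Finsupp.linearCombination A w l) = Finsupp.linearCombination A e l := by
    intro l
    rw [Finsupp.linearCombination_apply, Finsupp.linearCombination_apply, Finsupp.sum,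
      Finsupp.sum, map_sum]
    refine Finset.sum_congr rfl fun x _ => ?_
    rw [map_smul, Function.surjInv_eq hq]
  have hψ3ex : ∀ l : F →₀ A, ∃ c : C, l ∈ rest AM XM (LinearMap.ker (piF A F)) →
      ι c = Finsupp.linearCombination A w l := by
    intro l
    by_cases hl : l ∈ rest AM XM (LinearMap.ker (piF A F))
    · obtain ⟨c, hc⟩ := hex (Finsupp.linearCombination A w l) (by rw [hw, he3 l hl])
      exact ⟨c, fun _ => hc⟩
    · exact ⟨0, fun h => (hl h).elim⟩
  choose ψ3 hψ3 using hψ3ex
  obtain ⟨c, hc⟩ := hF ψ3 (LinOn.of_injective ι hι hψ3 (linOn_linear _))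
  let w' : F → I := fun x => w x - ι (c x)
  have hw'lc : ∀ l, Finsupp.linearCombination A w' l =
      Finsupp.linearCombination A w l - ι (Finsupp.linearCombination A c l) := by
    intro l
    simp only [Finsupp.linearCombination_apply, Finsupp.sum, w', smul_sub,
      Finset.sum_sub_distrib, map_sum, map_smul]
  have hw'0 : ∀ l ∈ rest AM XM (LinearMap.ker (piF A F)),
      Finsupp.linearCombination A w' l = 0 := by
    intro l hl
    rw [hw'lc, ← hψ3 l hl, hc l hl, sub_self]
  have hEex : ∀ x : F, ∃ c : C, x ∈ XM → ι c = v x - w' (d x) := by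
    intro x
    by_cases hx : x ∈ XM
    · obtain ⟨c', hc'⟩ := hex (v x - w' (d x)) (by
        simp only [w', w, map_sub, Function.surjInv_eq hq, hqι, he2 x hx]
        abel)
      exact ⟨c', fun _ => hc'⟩
    · exact ⟨0, fun h => (hx h).elim⟩
  choose E hE using hEex
  refine ⟨E, fun l hl => ?_⟩
  apply hι
  rw [hv l hl]
  have h1 : Over AM XM (∑ x ∈ l.support, Finsupp.single (d x) (l x)) :=
    Over.sum _ _ fun x hx => Over.single (hcl.diff x (hl.2 x hx).1) (hl.2 x hx).2
  have h2 : piF A F (∑ x ∈ l.support, Finsupp.single (d x) (l x)) = 0 := by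
    have h3 : d (piF A F l) = 0 := hl.1
    rw [← h3, map_sum, lin_eq_sum (piF A F) l, map_sum]
    refine Finset.sum_congr rfl fun x _ => ?_
    rw [piF_single, map_smul, piF_single, one_smul]
  have h3 := hw'0 _ ⟨h2, h1⟩
  rw [map_sum] at h3
  simp only [Finsupp.linearCombination_single] at h3
  have h4 : ι (Finsupp.linearCombination A E l) =
      Finsupp.linearCombination A v l - ∑ x ∈ l.support, l x • w' (d x) := by
    rw [Finsupp.linearCombination_apply, Finsupp.linearCombination_apply, Finsupp.sum,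
      Finsupp.sum, map_sum, ← Finset.sum_sub_distrib]
    refine Finset.sum_congr rfl fun x hx => ?_
    rw [map_smul, hE x (hl.2 x hx).1, smul_sub]
  rw [h4, h3, sub_zero]

end

end Pool.Agent.Q26.FP
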