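import Pool.Agent.Q26.FP.B
import Pool.Agent.Q26.FP.E
import Pool.Agent.Q26.FP.G
import Pool.Agent.Q26.FP.H

/-!
The closure rules for a differential module.
-/

namespace Pool.Agent.Q26.FP

universe u

/-- The union of all the sets of data. -/
inductive Om (R A F μ Δ : Type u) : Type u
  | r (x : R)
  | a (x : A)
  | x (x : F)
  | m (x : μ)
  | d (x : Δ)

theorem VPure.supp {S X : Type u} [Ring S] {K : Submodule S (X →₀ S)} (hK : VPure K)
    (k : X →₀ S) : ∃ θ : (X →₀ S) →ₗ[S] (X →₀ S), (k ∈ K → θ k = k) ∧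
      (∀ x, θ (Finsupp.single x 1) ∈ K) ∧ ∀ x, x ∉ k.support → θ (Finsupp.single x 1) = 0 := by
  classical
  by_cases hk : k ∈ K
  · obtain ⟨θ, h1, h2⟩ := hK k hk
    let w : X → (X →₀ S) := fun x => if x ∈ k.support then θ (Finsupp.single x 1) else 0
    refine ⟨Finsupp.linearCombination S w, fun _ => ?_, ?_, ?_⟩
    · conv_rhs => rw [← h2, lin_eq_sum θ k]
      rw [Finsupp.linearCombination_apply, Finsupp.sum]
      refine Finset.sum_congr rfl fun x hx => ?_
      simp only [w, if_pos hx]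
    · intro x
      rw [Finsupp.linearCombination_single, one_smul]
      by_cases hx : x ∈ k.support
      · simp only [w, if_pos hx]
        exact h1 _
      · simp only [w, if_neg hx]
        exact K.zero_mem
    · intro x hx
      rw [Finsupp.linearCombination_single, one_smul]
      simp only [w, if_neg hx]
  · exact ⟨0, fun h => (hk h).elim, fun x => K.zero_mem, fun x _ => rfl⟩

section count

variable {Ω : Type u}

theorem count_inj {α : Type*} {v : α → Ω} (hv : Function.Injective v) (s : Set Ω)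
    (hs : s.Finite) : {a | ({v a} : Set Ω) ⊆ s}.Countable := by
  refine ((hs.preimage hv.injOn).subset ?_).countable
  intro a ha
  exact ha (Set.mem_singleton _)

theorem count_prod {α β : Type*} {P : α → Set Ω} {P' : β → Set Ω}
    (h : ∀ s : Set Ω, s.Finite → {a | P a ⊆ s}.Countable)
    (h' : ∀ s : Set Ω, s.Finite → {b | P' b ⊆ s}.Countable) (s : Set Ω) (hs : s.Finite) :
    {x : α × β | P x.1 ∪ P' x.2 ⊆ s}.Countable := by
  refine ((h s hs).prod (h' s hs)).mono ?_
  intro x hx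
  exact ⟨Set.subset_union_left.trans hx, Set.subset_union_right.trans hx⟩

end count

section data

variable {R A F : Type u} [Ring R] [Ring A] [AddCommGroup F] [Module A F]

/-- The relations of `F`. -/
noncomputable abbrev LF (A F : Type u) [Ring A] [AddCommGroup F] [Module A F] : Submodule A (F →₀ A) :=
  LinearMap.ker (piF A F)

/-- Derivations with their conclusions. -/
abbrev Dl (F : Type u) [AddCommGroup F] [Module A F] (f : R →+* A) : Type u :=
  Σ v : (Gen R A (LF A F) (Tm R) →₀ A), Der f v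

/-- All the data. -/
abbrev OmF (F : Type u) [AddCommGroup F] [Module A F] (f : R →+* A) : Type u :=
  Om R A F (Tm R) (Dl F f)

variable {f : R →+* A}

/-- Trace of an element of the free module on `F`. -/
abbrev trP (f : R →+* A) (p : F →₀ A) : Set (OmF F f) := trace Om.x Om.a p

/-- Trace of an element of the free `R`-module. -/
abbrev trK (F : Type u) [AddCommGroup F] [Module A F] (f : R →+* A) (p : Tm R →₀ R) :
    Set (OmF F f) := trace Om.m Om.r p

theorem om_r_inj : Function.Injective (Om.r : R → OmF F f) := fun _ _ h => Om.r.inj h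
theorem om_a_inj : Function.Injective (Om.a : A → OmF F f) := fun _ _ h => Om.a.inj h
theorem om_x_inj : Function.Injective (Om.x : F → OmF F f) := fun _ _ h => Om.x.inj h
theorem om_m_inj : Function.Injective (Om.m : Tm R → OmF F f) := fun _ _ h => Om.m.inj h
theorem om_d_inj : Function.Injective (Om.d : Dl F f → OmF F f) := fun _ _ h => Om.d.inj h

/-- Immediate parts of a derivation. -/
def parts : Dl F f → Set (OmF F f)
  | ⟨_, Der.zero⟩ => ∅
  | ⟨_, Der.add δ ε⟩ => {Om.d ⟨_, δ⟩, Om.d ⟨_, ε⟩}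
  | ⟨_, Der.smul _ δ⟩ => {Om.d ⟨_, δ⟩}
  | ⟨_, Der.badd l l'⟩ => trP f (l : F →₀ A) ∪ trP f (l' : F →₀ A)
  | ⟨_, Der.bsmul a l⟩ => {Om.a a} ∪ trP f (l : F →₀ A)
  | ⟨_, Der.cell _ _ _ _ _ _ k⟩ => trK F f (k : Tm R →₀ R)

/-- The premises of a cell. -/
def con1 : Dl F f → (Tm R →₀ R) → (Tm R →₀ R) → Set (OmF F f)
  | ⟨_, Der.cell K _ _ _ hadd _ _⟩, p, p' =>
    {o | ∃ (h : p ∈ K.1) (h' : p' ∈ K.1), o = Om.d ⟨_, hadd ⟨p, h⟩ ⟨p', h'⟩⟩}
  | _, _, _ => ∅

/-- The premises of a cell. -/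
def con2 : Dl F f → R → (Tm R →₀ R) → Set (OmF F f)
  | ⟨_, Der.cell K _ _ _ _ hsmul _⟩, r, p =>
    {o | ∃ (h : p ∈ K.1), o = Om.d ⟨_, hsmul r ⟨p, h⟩⟩}
  | _, _, _ => ∅

/-- The endomorphisms of a cell. -/
def con3 (th : {K : Submodule R (Tm R →₀ R) // VPure K} → (Tm R →₀ R) →
    ((Tm R →₀ R) →ₗ[R] (Tm R →₀ R))) : Dl F f → (Tm R →₀ R) → Set (OmF F f)
  | ⟨_, Der.cell K _ _ _ _ _ _⟩, p =>
    ⋃ x ∈ (p.support : Set (Tm R)), trK F f (th K p (Finsupp.single x 1))
  | _, _ => ∅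

theorem parts_countable (δ : Dl F f) : (parts δ).Countable := by
  obtain ⟨v, δ⟩ := δ
  cases δ with
  | zero => exact Set.countable_empty
  | add δ ε =>
    exact (Set.toFinite ({Om.d ⟨_, δ⟩, Om.d ⟨_, ε⟩} : Set (OmF F f))).countable
  | smul a δ => exact (Set.finite_singleton (Om.d ⟨_, δ⟩ : OmF F f)).countable
  | badd l l' => exact ((trace_finite _ _ _).union (trace_finite _ _ _)).countable
  | bsmul a l => exact ((Set.finite_singleton _).union (trace_finite _ _ _)).countable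
  | cell K n a g hadd hsmul k => exact (trace_finite _ _ _).countable

theorem con1_countable (δ : Dl F f) (p p' : Tm R →₀ R) : (con1 δ p p').Countable := by
  obtain ⟨v, δ⟩ := δ
  cases δ with
  | cell K n a g hadd hsmul k =>
    apply Set.Subsingleton.countable
    rintro _ ⟨h, h', rfl⟩ _ ⟨h2, h2', rfl⟩
    rfl
  | _ => exact Set.countable_empty

theorem con2_countable (δ : Dl F f) (r : R) (p : Tm R →₀ R) : (con2 δ r p).Countable := by
  obtain ⟨v, δ⟩ := δ
  cases δ with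
  | cell K n a g hadd hsmul k =>
    apply Set.Subsingleton.countable
    rintro _ ⟨h, rfl⟩ _ ⟨h2, rfl⟩
    rfl
  | _ => exact Set.countable_empty

theorem con3_countable (th : {K : Submodule R (Tm R →₀ R) // VPure K} → (Tm R →₀ R) →
    ((Tm R →₀ R) →ₗ[R] (Tm R →₀ R))) (δ : Dl F f) (p : Tm R →₀ R) :
    (con3 th δ p).Countable := by
  obtain ⟨v, δ⟩ := δ
  cases δ with
  | cell K n a g hadd hsmul k =>
    exact (p.support.finite_toSet.countable).biUnion fun x _ => (trace_finite _ _ _).countable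
  | _ => exact Set.countable_empty

/-- Closure properties of a set of data. -/
structure Good (f : R →+* A) (d : F →ₗ[A] F) (LZ : Submodule A (F →₀ A))
    (thK : {K : Submodule R (Tm R →₀ R) // VPure K} → (Tm R →₀ R) →
      ((Tm R →₀ R) →ₗ[R] (Tm R →₀ R)))
    (thZ : (F →₀ A) → ((F →₀ A) →ₗ[A] (F →₀ A)))
    (dl : LF A F → Dl F f) (sel : F → F) (M : Set (OmF F f)) : Prop where
  const : ({Om.r 0, Om.r 1, Om.a 0, Om.a 1, Om.x 0} : Set (OmF F f)) ⊆ M
  r2 : ∀ x : R × R, ({Om.r x.1} ∪ {Om.r x.2} : Set (OmF F f)) ⊆ M →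
    ({Om.r (x.1 + x.2), Om.r (x.1 * x.2), Om.r (-x.1)} : Set (OmF F f)) ⊆ M
  a2 : ∀ x : A × A, ({Om.a x.1} ∪ {Om.a x.2} : Set (OmF F f)) ⊆ M →
    ({Om.a (x.1 + x.2), Om.a (x.1 * x.2), Om.a (-x.1)} : Set (OmF F f)) ⊆ M
  f2 : ∀ x : F × F, ({Om.x x.1} ∪ {Om.x x.2} : Set (OmF F f)) ⊆ M →
    ({Om.x (x.1 + x.2)} : Set (OmF F f)) ⊆ M
  af : ∀ x : A × F, ({Om.a x.1} ∪ {Om.x x.2} : Set (OmF F f)) ⊆ M →
    ({Om.x (x.1 • x.2)} : Set (OmF F f)) ⊆ M
  f1 : ∀ x : F, ({Om.x x} : Set (OmF F f)) ⊆ M →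
    ({Om.x (d x), Om.x (sel x)} : Set (OmF F f)) ⊆ M
  z : ∀ p : F →₀ A, trP f p ⊆ M →
    (⋃ x ∈ (p.support : Set F), trP f (thZ p (Finsupp.single x 1))) ⊆ M
  l : ∀ p : LF A F, trP f (p : F →₀ A) ⊆ M → ({Om.d (dl p)} : Set (OmF F f)) ⊆ M
  d0 : ∀ δ : Dl F f, ({Om.d δ} : Set (OmF F f)) ⊆ M → parts δ ⊆ M
  d1 : ∀ x : Dl F f × (Tm R →₀ R) × (Tm R →₀ R),
    ({Om.d x.1} ∪ (trK F f x.2.1 ∪ trK F f x.2.2) : Set (OmF F f)) ⊆ M →
    con1 x.1 x.2.1 x.2.2 ⊆ M
  d2 : ∀ x : Dl F f × R × (Tm R →₀ R),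
    ({Om.d x.1} ∪ ({Om.r x.2.1} ∪ trK F f x.2.2) : Set (OmF F f)) ⊆ M →
    con2 x.1 x.2.1 x.2.2 ⊆ M
  d3 : ∀ x : Dl F f × (Tm R →₀ R),
    ({Om.d x.1} ∪ trK F f x.2 : Set (OmF F f)) ⊆ M → con3 thK x.1 x.2 ⊆ M

theorem club_good (f : R →+* A) (d : F →ₗ[A] F) (LZ : Submodule A (F →₀ A))
    (thK : {K : Submodule R (Tm R →₀ R) // VPure K} → (Tm R →₀ R) →
      ((Tm R →₀ R) →ₗ[R] (Tm R →₀ R)))
    (thZ : (F →₀ A) → ((F →₀ A) →ₗ[A] (F →₀ A)))
    (dl : LF A F → Dl F f) (sel : F → F) : Club (Good f d LZ thK thZ dl sel) := by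
  have hr := fun (s : Set (OmF F f)) hs => count_inj (om_r_inj (F := F) (f := f)) s hs
  have ha := fun (s : Set (OmF F f)) hs => count_inj (om_a_inj (F := F) (f := f)) s hs
  have hx := fun (s : Set (OmF F f)) hs => count_inj (om_x_inj (F := F) (f := f)) s hs
  have hd := fun (s : Set (OmF F f)) hs => count_inj (om_d_inj (F := F) (f := f)) s hs
  have hP : ∀ s : Set (OmF F f), s.Finite → {p : F →₀ A | trP f p ⊆ s}.Countable :=
    fun s hs => (trace_count om_x_inj om_a_inj s hs).countable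
  have hK : ∀ s : Set (OmF F f), s.Finite → {p : Tm R →₀ R | trK F f p ⊆ s}.Countable :=
    fun s hs => (trace_count om_m_inj om_r_inj s hs).countable
  have hL : ∀ s : Set (OmF F f), s.Finite →
      {p : LF A F | trP f (p : F →₀ A) ⊆ s}.Countable := by
    intro s hs
    exact (hP s hs).preimage_of_injOn Subtype.val_injective.injOn
  have c0 : Club (fun M : Set (OmF F f) => ({Om.r 0, Om.r 1, Om.a 0, Om.a 1, Om.x 0} :
      Set (OmF F f)) ⊆ M) := club_const _ (Set.toFinite _).countable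
  have c1 := club_rule (X := R × R) (fun x => ({Om.r x.1} ∪ {Om.r x.2} : Set (OmF F f)))
    (fun x => {Om.r (x.1 + x.2), Om.r (x.1 * x.2), Om.r (-x.1)})
    (fun x => Set.toFinite _) (fun x => (Set.toFinite _).countable) (count_prod hr hr)
  have c2 := club_rule (X := A × A) (fun x => ({Om.a x.1} ∪ {Om.a x.2} : Set (OmF F f)))
    (fun x => {Om.a (x.1 + x.2), Om.a (x.1 * x.2), Om.a (-x.1)})
    (fun x => Set.toFinite _) (fun x => (Set.toFinite _).countable) (count_prod ha ha)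
  have c3 := club_rule (X := F × F) (fun x => ({Om.x x.1} ∪ {Om.x x.2} : Set (OmF F f)))
    (fun x => {Om.x (x.1 + x.2)})
    (fun x => Set.toFinite _) (fun x => (Set.toFinite _).countable) (count_prod hx hx)
  have c4 := club_rule (X := A × F) (fun x => ({Om.a x.1} ∪ {Om.x x.2} : Set (OmF F f)))
    (fun x => {Om.x (x.1 • x.2)})
    (fun x => Set.toFinite _) (fun x => (Set.toFinite _).countable) (count_prod ha hx)
  have c5 := club_rule (X := F) (fun x => ({Om.x x} : Set (OmF F f)))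
    (fun x => {Om.x (d x), Om.x (sel x)})
    (fun x => Set.toFinite _) (fun x => (Set.toFinite _).countable) hx
  have c6 := club_rule (X := F →₀ A) (fun p => trP f p)
    (fun p => ⋃ x ∈ (p.support : Set F), trP f (thZ p (Finsupp.single x 1)))
    (fun p => trace_finite _ _ _) (fun p => (p.support.finite_toSet.countable).biUnion
      fun x _ => (trace_finite _ _ _).countable) hP
  have c7 := club_rule (X := LF A F) (fun p => trP f (p : F →₀ A))
    (fun p => {Om.d (dl p)})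
    (fun p => trace_finite _ _ _) (fun x => (Set.toFinite _).countable) hL
  have c8 := club_rule (X := Dl F f) (fun δ => ({Om.d δ} : Set (OmF F f)))
    (fun δ => parts δ) (fun x => Set.toFinite _) parts_countable hd
  have c9 := club_rule (X := Dl F f × (Tm R →₀ R) × (Tm R →₀ R))
    (fun x => ({Om.d x.1} ∪ (trK F f x.2.1 ∪ trK F f x.2.2) : Set (OmF F f)))
    (fun x => con1 x.1 x.2.1 x.2.2)
    (fun x => (Set.finite_singleton _).union ((trace_finite _ _ _).union (trace_finite _ _ _)))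
    (fun x => con1_countable _ _ _) (count_prod hd (count_prod hK hK))
  have c10 := club_rule (X := Dl F f × R × (Tm R →₀ R))
    (fun x => ({Om.d x.1} ∪ ({Om.r x.2.1} ∪ trK F f x.2.2) : Set (OmF F f)))
    (fun x => con2 x.1 x.2.1 x.2.2)
    (fun x => (Set.finite_singleton _).union ((Set.finite_singleton _).union
      (trace_finite _ _ _)))
    (fun x => con2_countable _ _ _) (count_prod hd (count_prod hr hK))
  have c11 := club_rule (X := Dl F f × (Tm R →₀ R))
    (fun x => ({Om.d x.1} ∪ trK F f x.2 : Set (OmF F f)))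
    (fun x => con3 thK x.1 x.2)
    (fun x => (Set.finite_singleton _).union (trace_finite _ _ _))
    (fun x => con3_countable _ _ _) (count_prod hd hK)
  refine ((((((((((((c0.and c1).and c2).and c3).and c4).and c5).and c6).and c7).and c8).and
    c9).and c10).and c11).mono) ?_
  rintro M ⟨⟨⟨⟨⟨⟨⟨⟨⟨⟨⟨h0, h1⟩, h2⟩, h3⟩, h4⟩, h5⟩, h6⟩, h7⟩, h8⟩, h9⟩, h10⟩, h11⟩
  exact ⟨h0, h1, h2, h3, h4, h5, h6, h7, h8, h9, h10, h11⟩

end data

end Pool.Agent.Q26.FP
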