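import Pool.Agent.Q26.FP.J

/-!
Flaprojective differential modules with flat cycles.
-/

namespace Pool.Agent.Q26.FP

universe u

theorem exists_injective_embedding (S : Type u) [Ring S] (P : Type u) [AddCommGroup P]
    [Module S P] : ∃ (E : Type u) (_ : AddCommGroup E) (_ : Module S E) (ι : P →ₗ[S] E),
      Function.Injective ι ∧ Module.Injective S E := by
  obtain ⟨J⟩ := CategoryTheory.EnoughInjectives.presentation (ModuleCat.of S P)
  refine ⟨J.J, inferInstance, inferInstance, J.f.hom, ?_, ?_⟩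
  · exact (ModuleCat.mono_iff_injective J.f).mp J.mono
  · have := J.injective
    exact Module.injective_module_of_injective_object S J.J

/-- A cotorsion module has the extension property. -/
theorem IsCotorsion.extP {S X C : Type u} [Ring S] [AddCommGroup C] [Module S C]
    (hC : IsCotorsion S C) (K : Submodule S (X →₀ S)) (hK : VPure K) : ExtP K C := by
  have h := extP_ker K.mkQ (Submodule.mkQ_surjective K)
    (hC ((X →₀ S) ⧸ K) (isFlat_quotient hK))
  rwa [Submodule.ker_mkQ] at h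

section

variable {R A F : Type u} [Ring R] [Ring A] [AddCommGroup F] [Module A F] {f : R →+* A}
  {d : F →ₗ[A] F} {LZ : Submodule A (F →₀ A)}
  {thK : {K : Submodule R (Tm R →₀ R) // VPure K} → (Tm R →₀ R) →
    ((Tm R →₀ R) →ₗ[R] (Tm R →₀ R))}
  {thZ : (F →₀ A) → ((F →₀ A) →ₗ[A] (F →₀ A))}
  {dl : LF A F → Dl F f} {sel : F → F} {M : Set (OmF F f)}

/-- The subring of `R`. -/
def Good.RM (h : Good f d LZ thK thZ dl sel M) : Subring R where
  carrier := {r | Om.r r ∈ M}
  zero_mem' := h.const (by simp)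
  one_mem' := h.const (by simp)
  add_mem' := by
    intro x y hx hy
    exact h.r2 (x, y) (Set.union_subset (Set.singleton_subset_iff.mpr hx)
      (Set.singleton_subset_iff.mpr hy)) (by simp)
  mul_mem' := by
    intro x y hx hy
    exact h.r2 (x, y) (Set.union_subset (Set.singleton_subset_iff.mpr hx)
      (Set.singleton_subset_iff.mpr hy)) (by simp)
  neg_mem' := by
    intro x hx
    exact h.r2 (x, x) (Set.union_subset (Set.singleton_subset_iff.mpr hx)
      (Set.singleton_subset_iff.mpr hx)) (by simp)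

/-- The subring of `A`. -/
def Good.AM (h : Good f d LZ thK thZ dl sel M) : Subring A where
  carrier := {r | Om.a r ∈ M}
  zero_mem' := h.const (by simp)
  one_mem' := h.const (by simp)
  add_mem' := by
    intro x y hx hy
    exact h.a2 (x, y) (Set.union_subset (Set.singleton_subset_iff.mpr hx)
      (Set.singleton_subset_iff.mpr hy)) (by simp)
  mul_mem' := by
    intro x y hx hy
    exact h.a2 (x, y) (Set.union_subset (Set.singleton_subset_iff.mpr hx)
      (Set.singleton_subset_iff.mpr hy)) (by simp)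
  neg_mem' := by
    intro x hx
    exact h.a2 (x, x) (Set.union_subset (Set.singleton_subset_iff.mpr hx)
      (Set.singleton_subset_iff.mpr hx)) (by simp)

/-- The subset of `F`. -/
def XF (M : Set (OmF F f)) : Set F := {x | Om.x x ∈ M}

/-- The subset of the terms. -/
def XT (M : Set (OmF F f)) : Set (Tm R) := {x | Om.m x ∈ M}

theorem Good.trP_iff (h : Good f d LZ thK thZ dl sel M) (p : F →₀ A) :
    trP f p ⊆ M ↔ Over h.AM (XF M) p := by
  constructor
  · intro H x hx
    exact ⟨H ⟨x, hx, Or.inl rfl⟩, H ⟨x, hx, Or.inr rfl⟩⟩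
  · rintro H o ⟨x, hx, rfl | rfl⟩
    · exact (H x hx).1
    · exact (H x hx).2

theorem Good.trK_iff (h : Good f d LZ thK thZ dl sel M) (p : Tm R →₀ R) :
    trK F f p ⊆ M ↔ Over h.RM (XT M) p := by
  constructor
  · intro H x hx
    exact ⟨H ⟨x, hx, Or.inl rfl⟩, H ⟨x, hx, Or.inr rfl⟩⟩
  · rintro H o ⟨x, hx, rfl | rfl⟩
    · exact (H x hx).1
    · exact (H x hx).2

theorem Good.fclosed (h : Good f d LZ thK thZ dl sel M) (hsel : ∀ z, d z = 0 → d (sel z) = z) :
    FClosed h.AM (XF M) d where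
  zero := h.const (by simp)
  add := by
    intro x hx y hy
    exact h.f2 (x, y) (Set.union_subset (Set.singleton_subset_iff.mpr hx)
      (Set.singleton_subset_iff.mpr hy)) (by simp)
  smul := by
    intro x hx y hy
    exact h.af (x, y) (Set.union_subset (Set.singleton_subset_iff.mpr hx)
      (Set.singleton_subset_iff.mpr hy)) (by simp)
  diff := by
    intro x hx
    exact h.f1 x (Set.singleton_subset_iff.mpr hx) (by simp)
  sec := by
    intro z hz hdz
    exact ⟨sel z, h.f1 z (Set.singleton_subset_iff.mpr hz) (by simp), hsel z hdz⟩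

theorem Good.thetaZ (h : Good f d LZ thK thZ dl sel M)
    (h1 : ∀ p ∈ LZ, thZ p p = p) (h2 : ∀ p x, thZ p (Finsupp.single x 1) ∈ LZ)
    (h3 : ∀ (p : F →₀ A) x, x ∉ p.support → thZ p (Finsupp.single x 1) = 0) :
    ThetaClosed h.AM (XF M) LZ := by
  intro k hk
  refine ⟨thZ k, h1 k hk.1, fun x => ⟨h2 k x, ?_⟩⟩
  by_cases hx : x ∈ k.support
  · rw [← h.trP_iff]
    refine Set.Subset.trans ?_ (h.z k ((h.trP_iff k).mpr hk.2))
    intro o ho
    exact Set.mem_biUnion (x := x) hx ho
  · rw [h3 k x hx]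
    exact Over.zero

theorem Good.dclosed (h : Good f d LZ thK thZ dl sel M)
    (h1 : ∀ K k, k ∈ K.1 → thK K k k = k) (h2 : ∀ K k x, thK K k (Finsupp.single x 1) ∈ K.1)
    (h3 : ∀ K (k : Tm R →₀ R) x, x ∉ k.support → thK K k (Finsupp.single x 1) = 0) :
    DClosed f h.RM (XT M) h.AM {l : LF A F | Over h.AM (XF M) (l : F →₀ A)}
      (fun v δ => Om.d ⟨v, δ⟩ ∈ M) where
  add := by
    intro v w δ ε hδ
    have := h.d0 _ (Set.singleton_subset_iff.mpr hδ)
    exact ⟨this (Or.inl rfl), this (Or.inr rfl)⟩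
  smul := by
    intro a v δ hδ
    have := h.d0 _ (Set.singleton_subset_iff.mpr hδ)
    exact this rfl
  badd := by
    intro l l' hδ
    have := h.d0 _ (Set.singleton_subset_iff.mpr hδ)
    exact ⟨(h.trP_iff _).mp (Set.subset_union_left.trans this),
      (h.trP_iff _).mp (Set.subset_union_right.trans this)⟩
  bsmul := by
    intro a l hδ
    have := h.d0 _ (Set.singleton_subset_iff.mpr hδ)
    exact ⟨this (Or.inl rfl), (h.trP_iff _).mp (Set.subset_union_right.trans this)⟩
  cell0 := by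
    intro K n a g hadd hsmul k hδ
    have := h.d0 _ (Set.singleton_subset_iff.mpr hδ)
    exact (h.trK_iff _).mp this
  cell1 := by
    intro K n a g hadd hsmul k hδ k' k'' hk' hk''
    have := h.d1 (⟨_, Der.cell K n a g hadd hsmul k⟩, (k' : Tm R →₀ R), (k'' : Tm R →₀ R))
      (Set.union_subset (Set.singleton_subset_iff.mpr hδ)
        (Set.union_subset ((h.trK_iff _).mpr hk') ((h.trK_iff _).mpr hk'')))
    exact this ⟨k'.2, k''.2, rfl⟩
  cell2 := by
    intro K n a g hadd hsmul k hδ r k' hr hk'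
    have := h.d2 (⟨_, Der.cell K n a g hadd hsmul k⟩, r, (k' : Tm R →₀ R))
      (Set.union_subset (Set.singleton_subset_iff.mpr hδ)
        (Set.union_subset (Set.singleton_subset_iff.mpr hr) ((h.trK_iff _).mpr hk')))
    exact this ⟨k'.2, rfl⟩
  cell3 := by
    intro K n a g hadd hsmul k hδ p hp
    refine ⟨thK K p, h1 K p hp.1, fun x => ⟨h2 K p x, ?_⟩⟩
    by_cases hx : x ∈ p.support
    · rw [← h.trK_iff]
      refine Set.Subset.trans ?_ (h.d3 (⟨_, Der.cell K n a g hadd hsmul k⟩, p)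
        (Set.union_subset (Set.singleton_subset_iff.mpr hδ) ((h.trK_iff _).mpr hp.2)))
      intro o ho
      exact Set.mem_biUnion (x := x) hx ho
    · rw [h3 K p x hx]
      exact Over.zero

end

section

variable {R A F : Type u} [Ring R] [Ring A] [AddCommGroup F] [Module A F]

theorem piF_surjective : Function.Surjective (piF A F) := fun x =>
  ⟨Finsupp.single x 1, by rw [piF_single, one_smul]⟩

/-- A flaprojective module maps to the free construction. -/
theorem exists_phi (f : R →+* A) (hF : IsFlaprojective f F) :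
    ∃ φ : F → (Gen R A (LF A F) (Tm R) →₀ A), ∀ l : LF A F,
      Nonempty (Der f (Finsupp.linearCombination A φ (l : F →₀ A) -
        Finsupp.single (Gen.base l) 1)) := by
  have hcot : @IsCotorsion R (DMod (LF A F) (Tm R) f) _ _ (Module.compHom _ f) :=
    @isCotorsion_of_small R (DMod (LF A F) (Tm R) f) _ _ (Module.compHom _ f)
      (fun K hK => dmod_ext f K hK)
  have hext := extP_ker (piF A F) piF_surjective (hF _ hcot)
  obtain ⟨g, hg⟩ := hext (jmap (LF A F) (Tm R) f)
  choose φ hφ using fun x : F => Submodule.Quotient.mk_surjective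
    (relN (LF A F) (Tm R) f) (g (Finsupp.single x 1))
  refine ⟨φ, fun l => ?_⟩
  change _ ∈ relN (LF A F) (Tm R) f
  rw [← Submodule.Quotient.mk_eq_zero, Submodule.Quotient.mk_sub, sub_eq_zero]
  have h1 := hg l
  change g (l : F →₀ A) = Submodule.Quotient.mk (Finsupp.single (Gen.base l) 1) at h1
  rw [← h1, lin_eq_sum g, Finsupp.linearCombination_apply, Finsupp.sum]
  change (relN (LF A F) (Tm R) f).mkQ _ = _
  rw [map_sum]
  refine Finset.sum_congr rfl fun x _ => ?_
  rw [map_smul, ← hφ]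
  rfl

/-- The extension property for the relations of a flaprojective module over a restriction. -/
theorem F_ext {f : R →+* A} {d : F →ₗ[A] F} {LZ : Submodule A (F →₀ A)}
    {thK : {K : Submodule R (Tm R →₀ R) // VPure K} → (Tm R →₀ R) →
      ((Tm R →₀ R) →ₗ[R] (Tm R →₀ R))}
    {thZ : (F →₀ A) → ((F →₀ A) →ₗ[A] (F →₀ A))}
    {sel : F → F} {M : Set (OmF F f)}
    (φ : F → (Gen R A (LF A F) (Tm R) →₀ A))
    (δ : ∀ l : LF A F, Der f (Finsupp.linearCombination A φ (l : F →₀ A) -
      Finsupp.single (Gen.base l) 1))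
    (h : Good f d LZ thK thZ (fun l => ⟨_, δ l⟩) sel M)
    (h1 : ∀ K k, k ∈ K.1 → thK K k k = k) (h2 : ∀ K k x, thK K k (Finsupp.single x 1) ∈ K.1)
    (h3 : ∀ K (k : Tm R →₀ R) x, x ∉ k.support → thK K k (Finsupp.single x 1) = 0)
    {C : Type u} [AddCommGroup C] [Module A C]
    (hC : @IsCotorsion R C _ _ (Module.compHom C f))
    (ψ : (F →₀ A) → C) (hψ : LinOn h.AM (XF M) (LinearMap.ker (piF A F)) ψ) :
    ∃ e : F → C, ∀ k ∈ rest h.AM (XF M) (LinearMap.ker (piF A F)),
      ψ k = Finsupp.linearCombination A e k := by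
  have hD := h.dclosed h1 h2 h3
  have hC' : ∀ K' : Submodule R (Tm R →₀ R), VPure K' →
      @ExtP R (Tm R) _ K' C _ (Module.compHom C f) := fun K' hK' =>
    @IsCotorsion.extP R (Tm R) C _ _ (Module.compHom C f) hC K' hK'
  let ψL : LF A F → C := fun l => ψ (l : F →₀ A)
  have key := fun v (δ' : Der f v) hδ' => psi_kill f hC' hD ψL
    (fun l hl l' hl' => hψ.1 _ ⟨l.2, hl⟩ _ ⟨l'.2, hl'⟩)
    (fun a ha l hl => hψ.2 a ha _ ⟨l.2, hl⟩) v δ' hδ'
  refine ⟨fun x => Finsupp.linearCombination A (Psi f h.RM (XT M) ψL) (φ x), ?_⟩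
  intro k hk
  have h4 := key _ (δ ⟨k, hk.1⟩) (h.l ⟨k, hk.1⟩ ((h.trP_iff k).mpr hk.2) rfl)
  rw [map_sub, sub_eq_zero, Finsupp.linearCombination_single, one_smul] at h4
  have h5 : Psi f h.RM (XT M) ψL (Gen.base ⟨k, hk.1⟩ : Gen R A (LF A F) (Tm R)) = ψ k := by
    simp only [Psi, ψL]
  rw [h5] at h4
  rw [← h4, Finsupp.linearCombination_apply A k, Finsupp.sum,
    Finsupp.linearCombination_apply A k, Finsupp.sum, map_sum]
  exact Finset.sum_congr rfl fun x _ => map_smul _ _ _

/-- The main theorem for differential modules. -/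
theorem main_diff (f : R →+* A) (d : F →ₗ[A] F) (hdd : ∀ x, d (d x) = 0)
    (hex : ∀ z, d z = 0 → ∃ x, d x = z) (hflat : IsFlat A (LinearMap.ker d))
    (hF : IsFlaprojective f F) : IsFlaprojective f (LinearMap.ker d) := by
  intro C _ _ hC
  -- the injective embedding
  obtain ⟨I, _, _, ι, hι, hI⟩ := exists_injective_embedding A C
  let Q := I ⧸ LinearMap.range ι
  let q : I →ₗ[A] Q := (LinearMap.range ι).mkQ
  have hq : Function.Surjective q := Submodule.mkQ_surjective _
  have hqι : ∀ c, q (ι c) = 0 := by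
    intro c
    rw [Submodule.mkQ_apply, Submodule.Quotient.mk_eq_zero]
    exact ⟨c, rfl⟩
  have hexI : ∀ y, q y = 0 → ∃ c, ι c = y := by
    intro y hy
    rw [Submodule.mkQ_apply, Submodule.Quotient.mk_eq_zero] at hy
    exact hy
  -- the presentation of the kernel
  let πZ : (F →₀ A) →ₗ[A] LinearMap.ker d :=
    LinearMap.codRestrict (LinearMap.ker d) (d ∘ₗ piF A F) (fun p => hdd _)
  have hπZ : Function.Surjective πZ := by
    intro z
    obtain ⟨x, hx⟩ := hex z z.2
    refine ⟨Finsupp.single x 1, Subtype.ext ?_⟩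
    change d (piF A F (Finsupp.single x 1)) = z
    rw [piF_single, one_smul, hx]
  have hker : LinearMap.ker πZ = LinearMap.ker (d ∘ₗ piF A F) := by
    ext p
    constructor
    · intro hp
      exact congrArg Subtype.val hp
    · intro hp
      exact Subtype.ext hp
  have hVZ : VPure (LinearMap.ker (d ∘ₗ piF A F)) := by
    rw [← hker]
    exact vpure_ker hflat πZ hπZ
  choose thZ hZ1 hZ2 hZ3 using fun p : F →₀ A => VPure.supp hVZ p
  choose thK hK1 hK2 hK3 using fun (K : {K : Submodule R (Tm R →₀ R) // VPure K})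
    (p : Tm R →₀ R) => VPure.supp K.2 p
  have hsel : ∀ z : F, ∃ x : F, d z = 0 → d x = z := by
    intro z
    by_cases h : d z = 0
    · obtain ⟨x, hx⟩ := hex z h
      exact ⟨x, fun _ => hx⟩
    · exact ⟨0, fun h' => (h h').elim⟩
  choose sel hsel using hsel
  obtain ⟨φ, hφ⟩ := exists_phi f hF
  let δ : ∀ l : LF A F, Der f (Finsupp.linearCombination A φ (l : F →₀ A) -
      Finsupp.single (Gen.base l) 1) := fun l => (hφ l).some
  obtain ⟨Φ, hΦ, hgood⟩ := club_good f d (LinearMap.ker (d ∘ₗ piF A F)) thK thZ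
    (fun l => ⟨_, δ l⟩) sel
  have hG : ∀ S, Good f d (LinearMap.ker (d ∘ₗ piF A F)) thK thZ
      (fun l => ⟨_, δ l⟩) sel (clo Φ S) := fun S => hgood _ (clo_closed Φ S)
  let σ : Sys (OmF F f) (LinearMap.ker (d ∘ₗ piF A F)) :=
    { AM := fun S => (hG S).AM
      XM := fun S => XF (clo Φ S)
      monoA := fun hS => fun a ha => clo_mono Φ hS ha
      monoX := fun hS => fun x hx => clo_mono Φ hS hx
      contA := fun c hne hdir a ha => clo_cont Φ c hne hdir _ ha
      contX := fun c hne hdir x hx => clo_cont Φ c hne hdir _ hx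
      ctA := fun S hS => (clo_countable Φ hΦ S hS).preimage_of_injOn om_a_inj.injOn
      ctX := fun S hS => (clo_countable Φ hΦ S hS).preimage_of_injOn om_x_inj.injOn
      theta := fun S => (hG S).thetaZ hZ1 hZ2 hZ3 }
  have hPI : ∀ S, PE σ I S := by
    intro S ψ hψ
    refine extend_of_theta (σ.theta S) ?_ ψ hψ
    intro K' _ g
    obtain ⟨h, hh⟩ := hI.out (X := K') (Y := F →₀ A) K'.subtype K'.injective_subtype g
    exact ⟨h, hh⟩
  have hshift : ∀ S, PE σ Q S → PE σ C S := by
    intro S hQ ψ hψ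
    refine shift ((hG S).fclosed hsel) hdd ι hι q hq hqι hexI (hPI S) ?_ hQ ψ hψ
    intro ψ' hψ'
    exact F_ext φ δ (hG S) hK1 hK2 hK3 hC ψ' hψ'
  have hmain := (PE_all σ ι hι q hq hqι hexI hPI hshift Set.univ).1
  apply extZero_of_extP πZ hπZ
  rw [hker]
  intro g
  classical
  let ψ : (F →₀ A) → C := fun p =>
    if hp : p ∈ LinearMap.ker (d ∘ₗ piF A F) then g ⟨p, hp⟩ else 0
  have hψ : ∀ p (hp : p ∈ LinearMap.ker (d ∘ₗ piF A F)), ψ p = g ⟨p, hp⟩ := fun p hp => by
    simp only [ψ, dif_pos hp]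
  obtain ⟨e, he⟩ := hmain ψ ⟨fun k hk l hl => by
      rw [hψ k hk.1, hψ l hl.1, hψ (k + l) (Submodule.add_mem _ hk.1 hl.1), ← map_add]
      rfl,
    fun t _ k hk => by
      rw [hψ k hk.1, hψ (t • k) (Submodule.smul_mem _ _ hk.1), ← map_smul]
      rfl⟩
  refine ⟨Finsupp.linearCombination A e, fun k => ?_⟩
  rw [← hψ k k.2]
  refine (he k ⟨k.2, fun x _ => ⟨?_, ?_⟩⟩).symm
  · exact subset_clo Φ Set.univ (Set.mem_univ _)
  · exact subset_clo Φ Set.univ (Set.mem_univ _)

end

end Pool.Agent.Q26.FP
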